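import Pool.Agent.H518.PZ.Rank
import Pool.Agent.H518.PZ.Flag2

/-!
# The weak unramified Fontaine-Mazur conjecture for most cyclic fields: small class and small factors

Let `p` be an odd prime and `K` a number field. We say that the conclusions hold for `K` if
* every continuous homomorphism from the absolute Galois group `G_K` to a `p`-valued group (Lazard), unramified everywhere, is
  trivial (uniform groups, and all groups with a `p`-valuation with values in `(1 / r) ℤ` for some `r`);
* every continuous, everywhere unramified representation `ρ` of `G_K` on `A ^ n` is trivial, if `A` is a Noetherian local ring in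
  which `p` is regular of order `e`, `c e ≤ p - 2` and the products of `c` matrices `ρ(g) - 1` are zero modulo the maximal ideal
  (`c = n` if all `ρ(g)` are unipotent modulo the maximal ideal); there is no condition on the size of the image;
* every continuous, everywhere unramified `ρ : G_K → GL_n(ℤ_p)` with pro-`p` image (any `n`) is trivial if it has small factors: this
  means that `ℤ_p ^ n` has a chain of stable sublattices such that every factor is torsion-free, and has rank at most `p - 2` or contains
  a stable lattice `Q` of the same rank such that the products of `p - 2` operators `ρ(g) - 1` map `Q` to `p Q` (for instance, it is a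
  representation of dimension at most `(p - 2) / e` over an extension `E / ℚ_p` with ramification index `e`, of any degree);
* every continuous, everywhere unramified `ρ : G_K → GL_n(ℤ_p)` with pro-`p` image (any `n`) has finite image, if the image has
  dimension `≤ p - 2` as a `p`-adic Lie group or, more generally, if its Lie algebra, a module for the adjoint action, has small
  factors. (The dimension is `≤ d` if and only if `[Γ_m : Γ_(m+1)] ≤ p ^ d` for all `m ≥ 1`, where `Γ_m` is the group of
  the elements of the image that are `1` modulo `p ^ m`.)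

So the Lie algebra of every infinite `p`-adic analytic quotient of the Galois group of the `p`-class field tower of such a field `K` has a
composition factor, for the adjoint action, of dimension at least `p - 1`, and even of dimension more than `(p - 2) / e` over `E` for
every extension `E / ℚ_p` with ramification index `e` which acts on it.

**Theorem.** (A) Let `K / F` be a Galois extension of `p`-power degree, where `F` has no unramified cyclic extension of degree `p`. If
the inertia groups of `K / F` act trivially on the class group of `K` modulo `p`, then the conclusions hold for all `K'` with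
`F ⊆ K' ⊆ K`. (There is also a version with a set `S` of primes at which ramification is allowed.)

(B) Let `L / ℚ` be cyclic of `p`-power degree, with at least `k` tamely ramified primes. If the `p`-rank of the class group of `L` is
at most `k - 1`, the smallest possible value by genus theory, then the conclusions hold for `L` and its subfields.

(C) Let `k ≥ 1`. For most sets `T` of `k` primes congruent to `1` modulo `p`, and most of the `(p - 1) ^ (k - 1)` cyclic extensions
`K / ℚ` of degree `p` ramified exactly at `T`, the conclusions hold for `K`, and also for all cyclic extensions `L ⊇ K` of `ℚ` of `p`-power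
degree that are unramified outside `T`. Precisely, the iterated lower mean over `q₁`, ..., `q_k` of the proportion of the good fields
is at least `∏_{i = 2}^k (1 - p ^ (-i)) > 1 - 1 / (p (p - 1))`.

For `k ≥ 3 + 2 √p` all fields in (C) have infinite `p`-class field towers (Golod-Shafarevich).

Proof. (A) Let `ρ` be a homomorphism to a `p`-valued group. Replace its values by all their conjugates by `G_F`. One gets a
filtration of the normal subgroup `G_K` of `G_F`; let `N_i` be its terms and suppose that the image is in the `i`-th term. Inertia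
elements `τ` act trivially on `G_K` modulo `[G_K, G_K] G_K ^ p N_j`. Induction on `j` shows that `G_F / N_j` has a filtration like that of
a regular `p`-group (P. Hall): `G_K / N_j` is powerfully filtered, as `ω > 1 / (p - 1)`, and `G_F` acts trivially on the layers, so that all
elements of inertia groups have order dividing `p ^ c` modulo the next term, with the same `c` as in the previous step, and
`G_F` would have a cyclic extension of degree `p` which is unramified. For the second and third part, the stabilizer of a chain of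
lattices (the sublattices of `Q` between `Q` and `p Q` on which all products of `i` operators `ρ(g) - 1` are divisible by `p`, and their
multiples) is `p`-valued with `ω = 1 / (c e) > 1 / (p - 1)`; by Kolchin's theorem the class is at most the rank. For the fourth part, the
limits of the `(γ - 1) / p ^ m`, `γ ∈ Γ_m`, form a saturated lattice in the Lie algebra, on which the group acts trivially by the third
part; so `Γ_1` is central in `Γ`, and the transfer `Γ → Γ_1` is trivial by the first part.

(B), (C) For cyclic `L` the unramified characters of order `p` that are invariant under `Gal(L / ℚ)` are the restrictions of the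
characters of `ℚ` unramified outside the ramified primes (genus theory). If there are other ones, there is a Heisenberg extension,
and the tame relations at `q₁`, ..., `q_k` give a nontrivial solution of a system of linear equations whose coefficients are the
linking numbers (power residue symbols) of the primes. All matrices of linking numbers are equally frequent (Chebotarev and
large sieve, from the library).
-/

set_option autoImplicit false

open NumberField Matrix IsLocalRing
open scoped ENNReal

namespace Pool.Agent.Results.MP_ca71b5_nt.CyclicFieldsSmallImages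

open Pool.Agent.Results.MP_ca71b5_nt.UniformQuotients

/-- the extensions of `F` in its algebraic closure -/
abbrev Ext (F : Type) [Field F] : Type := IntermediateField F (AlgebraicClosure F)

/-- A separated filtration of the group `U = Fil s`, from the index `s` on, such that commutators add the indices, the `p`-th power
adds exactly `r` to the index of every element, and `s > r / (p - 1)`. This is the same as a `p`-valuation `ω` of `U` (Lazard) with
values in `(1 / r) ℤ`: `Fil i` is the set of the elements with `ω ≥ i / r`. -/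
structure PValued {U : Type} [Group U] (p s r : ℕ) (Fil : ℕ → Subgroup U) : Prop where
  pos : 1 ≤ r
  lt : r < (p - 1) * s
  top : Fil s = ⊤
  anti : ∀ i, Fil (i + 1) ≤ Fil i
  comm : ∀ i j, s ≤ i → s ≤ j → ∀ x ∈ Fil i, ∀ y ∈ Fil j, x * y * x⁻¹ * y⁻¹ ∈ Fil (i + j)
  pow : ∀ i, s ≤ i → ∀ x ∈ Fil i, x ^ p ∈ Fil (i + r)
  inj : ∀ i, s ≤ i → ∀ x ∈ Fil i, x ^ p ∈ Fil (i + r + 1) → x ∈ Fil (i + 1)
  sep : ∀ x, (∀ i, x ∈ Fil i) → x = 1

/-- All homomorphisms from `G_K` to `p`-valued groups, continuous and unramified outside `S`, are trivial. -/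
def NoPValued {F : Type} [Field F] (S : Set (Ideal (𝓞 F))) (K : Ext F) (p : ℕ) : Prop :=
  ∀ (U : Type) [Group U] (Fil : ℕ → Subgroup U) (s r : ℕ), PValued p s r Fil →
    ∀ ρ : K.fixingSubgroup →* U, (∀ N, IsOpen {g | ρ g ∈ Fil N}) → Unramified S ρ → ∀ g, ρ g = 1

/-- `p` has order `e` with respect to the maximal ideal `m` of `A` and multiplication by `p` is injective from
`m ^ k / m ^ (k + 1)` to `m ^ (k + e) / m ^ (k + e + 1)` for all `k`, for instance `A` is a discrete valuation ring
in which `p` has valuation `e`. -/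
def RegularOfOrder (A : Type) [CommRing A] [IsLocalRing A] (p e : ℕ) : Prop :=
  (p : A) ∈ maximalIdeal A ^ e ∧
    ∀ k : ℕ, ∀ x ∈ maximalIdeal A ^ k, (p : A) * x ∈ maximalIdeal A ^ (k + e + 1) →
      x ∈ maximalIdeal A ^ (k + 1)

/-- The products of `c` matrices `ρ g - 1` are zero modulo the maximal ideal. -/
def ClassAtMost {A : Type} [CommRing A] [IsLocalRing A] {n : ℕ} {G : Type} [Group G] (ρ : G →* GL (Fin n) A) (c : ℕ) : Prop :=
  ∀ gs : List G, gs.length = c →
    ∀ i j, (gs.map fun g => (ρ g : Matrix (Fin n) (Fin n) A) - 1).prod i j ∈ maximalIdeal A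

/-- The matrices `ρ g` are unipotent modulo the maximal ideal. -/
def ResiduallyUnipotent {A : Type} [CommRing A] [IsLocalRing A] {n : ℕ} {G : Type} [Group G] (ρ : G →* GL (Fin n) A) : Prop :=
  ∀ g, ∃ r : ℕ, ∀ i j, (((ρ g : Matrix (Fin n) (Fin n) A) - 1) ^ r) i j ∈ maximalIdeal A

/-- All continuous representations of `G_K` on `A ^ n`, unramified outside `S`, of class at most `c` modulo the maximal ideal, are
trivial, if `A` is a Noetherian local ring in which `p` is regular of order `e ≥ 1` and `c e ≤ p - 2`; the condition on the class is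
satisfied with `c = n` if `ρ` is unipotent modulo the maximal ideal. -/
def NoUnipotent {F : Type} [Field F] (S : Set (Ideal (𝓞 F))) (K : Ext F) (p : ℕ) : Prop :=
  ∀ (A : Type) [CommRing A] [IsLocalRing A] [IsNoetherianRing A] [TopologicalSpace A],
    IsAdic (maximalIdeal A) → ∀ e n c : ℕ, 1 ≤ e → RegularOfOrder A p e → c * e ≤ p - 2 →
    ∀ ρ : K.fixingSubgroup →* GL (Fin n) A, Continuous ρ → Unramified S ρ →
    (ClassAtMost ρ c ∨ c = n ∧ ResiduallyUnipotent ρ) → ∀ g, ρ g = 1

/-- the subgroup of the elements `g` with `ρ g = 1` modulo `p ^ m` -/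
noncomputable def level {p n : ℕ} [Fact p.Prime] {G : Type} [Group G] (ρ : G →* GL (Fin n) ℤ_[p]) (m : ℕ) : Subgroup G :=
  ((GeneralLinearGroup.map (PadicInt.toZModPow (p := p) m)).comp ρ).ker

/-- Let `V ≤ U` be lattices, stable under the action `β` of `G`, and `U / V` torsion-free. The factor `U / V` has rank at most `p - 2`, or
it contains a stable lattice `Q = W / V` of finite index such that the products of `p - 2` operators `β g - 1` map `Q` to `p Q`. -/
def SmallFactor {p : ℕ} [Fact p.Prime] {G M : Type} [Group G] [AddCommGroup M] [Module ℤ_[p] M]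
    (β : G →* Module.End ℤ_[p] M) (U V : Submodule ℤ_[p] M) : Prop :=
  Module.finrank ℤ_[p] U ≤ Module.finrank ℤ_[p] V + (p - 2) ∨
    ∃ (W : Submodule ℤ_[p] M) (a : ℕ), V ≤ W ∧ W ≤ U ∧ (∀ x ∈ U, (p : ℤ_[p]) ^ a • x ∈ W) ∧
      (∀ g, ∀ x ∈ W, β g x ∈ W) ∧ ∀ gs : List G, gs.length = p - 2 → ∀ x ∈ W,
        ∃ y ∈ W, (gs.map fun g => β g - 1).prod x - (p : ℤ_[p]) • y ∈ V

/-- There is a chain of stable submodules from the lattice `Λ` to `0` with torsion-free small factors. -/
def SmallFactors {p : ℕ} [Fact p.Prime] {G M : Type} [Group G] [AddCommGroup M] [Module ℤ_[p] M]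
    (β : G →* Module.End ℤ_[p] M) (Λ : Submodule ℤ_[p] M) : Prop :=
  ∃ (r : ℕ) (V : ℕ → Submodule ℤ_[p] M), V 0 = Λ ∧ V r = ⊥ ∧ ∀ i < r, V (i + 1) ≤ V i ∧
    (∀ x ∈ V i, (p : ℤ_[p]) • x ∈ V (i + 1) → x ∈ V (i + 1)) ∧ (∀ g, ∀ x ∈ V i, β g x ∈ V i) ∧
    SmallFactor β (V i) (V (i + 1))

/-- the action of `G` on column vectors -/
noncomputable def onVectors {p n : ℕ} [Fact p.Prime] {G : Type} [Group G] (ρ : G →* GL (Fin n) ℤ_[p]) :
    G →* Module.End ℤ_[p] (Fin n → ℤ_[p]) where
  toFun g := Matrix.mulVecLin (ρ g : Matrix (Fin n) (Fin n) ℤ_[p])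
  map_one' := map_one (Pool.Agent.H518.PZ.stdA ρ)
  map_mul' := map_mul (Pool.Agent.H518.PZ.stdA ρ)

/-- the action of `G` on matrices by conjugation: `g` maps `X` to `ρ(g) X ρ(g)⁻¹` -/
noncomputable def adjoint {p n : ℕ} [Fact p.Prime] {G : Type} [Group G] (ρ : G →* GL (Fin n) ℤ_[p]) :
    G →* Module.End ℤ_[p] (Matrix (Fin n) (Fin n) ℤ_[p]) where
  toFun g := LinearMap.mulLeft ℤ_[p] (ρ g : Matrix (Fin n) (Fin n) ℤ_[p]) ∘ₗ
    LinearMap.mulRight ℤ_[p] (ρ g⁻¹ : Matrix (Fin n) (Fin n) ℤ_[p])
  map_one' := map_one (Pool.Agent.H518.PZ.cjA ρ)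
  map_mul' := map_mul (Pool.Agent.H518.PZ.cjA ρ)

/-- The lattice of the limits `X` of `(ρ(g) - 1) / p ^ m` for `m → ∞`: for every `N` there are `m > N` and `g` such that
`ρ(g) = 1 + p ^ m X` modulo `p ^ (m + N)`. If the image of `ρ` is closed, these `X` are the elements of the Lie algebra of the
image with entries in `ℤ_p`, so the rank of the lattice is the dimension of the image. -/
noncomputable def lieLattice {p n : ℕ} [Fact p.Prime] {G : Type} [Group G] (ρ : G →* GL (Fin n) ℤ_[p]) :
    Submodule ℤ_[p] (Matrix (Fin n) (Fin n) ℤ_[p]) :=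
  Submodule.span ℤ_[p] {X | ∀ N : ℕ, ∃ m, N + 1 ≤ m ∧ ∃ g, ∃ Z : Matrix (Fin n) (Fin n) ℤ_[p],
    (ρ g : Matrix (Fin n) (Fin n) ℤ_[p]) = 1 + (p : ℤ_[p]) ^ m • X + (p : ℤ_[p]) ^ (m + N) • Z}

/-- the image modulo `p` is a `p`-group, so the image is pro-`p` if `ρ` is continuous on a compact group -/
def ProPImage {p n : ℕ} [Fact p.Prime] {G : Type} [Group G] (ρ : G →* GL (Fin n) ℤ_[p]) : Prop :=
  ∀ g, ∃ k, g ^ (p ^ k) ∈ level ρ 1

/-- All continuous `ρ : G_K → GL_n(ℤ_p)` (any `n`), unramified outside `S`, with pro-`p` image, with small factors are trivial. -/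
def SmallFactorsTrivial {F : Type} [Field F] (S : Set (Ideal (𝓞 F))) (K : Ext F) (p : ℕ) [Fact p.Prime] : Prop :=
  ∀ (n : ℕ) (ρ : K.fixingSubgroup →* GL (Fin n) ℤ_[p]), Continuous ρ → Unramified S ρ → ProPImage ρ →
    SmallFactors (onVectors ρ) ⊤ → ∀ g, ρ g = 1

/-- All continuous `ρ : G_K → GL_n(ℤ_p)` (any `n`), unramified outside `S`, with pro-`p` image of dimension at most `p - 2`, or such
that the adjoint action on the Lie algebra of the image has small factors, have finite image. -/
def SmallImagesFinite {F : Type} [Field F] (S : Set (Ideal (𝓞 F))) (K : Ext F) (p : ℕ) [Fact p.Prime] : Prop :=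
  ∀ (n : ℕ) (ρ : K.fixingSubgroup →* GL (Fin n) ℤ_[p]), Continuous ρ → Unramified S ρ → ProPImage ρ →
    ((∀ m, 1 ≤ m → (level ρ (m + 1)).relIndex (level ρ m) ≤ p ^ (p - 2)) ∨
      SmallFactors (adjoint ρ) (lieLattice ρ)) → Finite ρ.range

/-- the four conclusions -/
def Conclusions {F : Type} [Field F] (S : Set (Ideal (𝓞 F))) (K : Ext F) (p : ℕ) [Fact p.Prime] : Prop :=
  NoPValued S K p ∧ NoUnipotent S K p ∧ SmallFactorsTrivial S K p ∧ SmallImagesFinite S K p

/-- The elements of the inertia groups of `F` outside `S` act trivially on the characters of order `p` of `G_K` that are unramified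
outside `S` (on the class group of `K` modulo `p`, if `S` is empty). -/
def InertiaActsTrivially {F : Type} [Field F] (S : Set (Ideal (𝓞 F))) (K : Ext F) (p : ℕ) : Prop :=
  ∀ τ ∈ inertia S, ∀ ψ : K.fixingSubgroup →* Multiplicative (ZMod p),
    IsOpen (ψ.ker : Set K.fixingSubgroup) → Unramified S ψ → ∀ x y : K.fixingSubgroup,
    (y : Gal(AlgebraicClosure F/F)) = τ * x * τ⁻¹ → ψ y = ψ x

/-- `L / F` is a finite cyclic Galois extension of degree `n`. -/
def Cyclic {F : Type} [Field F] (L : Ext F) (n : ℕ) : Prop :=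
  IsGalois F L ∧ IsCyclic Gal(L/F) ∧ Module.finrank F L = n

/-- Some inertia group at a prime above the rational prime `q` does not fix `L`. -/
def Ramified {F : Type} [Field F] (q : ℕ) (L : Ext F) : Prop :=
  ∃ P : Ideal (𝓞 (AlgebraicClosure F)), P.IsMaximal ∧ (q : 𝓞 (AlgebraicClosure F)) ∈ P ∧
    ∃ τ : Gal(AlgebraicClosure F/F), (∀ x : 𝓞 (AlgebraicClosure F), τ • x - x ∈ P) ∧ τ ∉ L.fixingSubgroup

/-- The continuous unramified homomorphisms from `G_L` to `ℤ / p`; they form the dual of the class group of `L` modulo `p`, if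
`p ≠ 2`. -/
def unramifiedCharacters {F : Type} [Field F] (L : Ext F) (p : ℕ) : Set (L.fixingSubgroup →* Multiplicative (ZMod p)) :=
  {ψ | IsOpen (ψ.ker : Set L.fixingSubgroup) ∧ Unramified (∅ : Set (Ideal (𝓞 F))) ψ}

/-- the cyclic extensions of `ℚ` of degree `p` that are ramified exactly at the primes in `T` -/
def fields (p : ℕ) (T : Finset ℕ) : Set (Ext ℚ) :=
  {K | Cyclic K p ∧ ∀ q : ℕ, q.Prime → (q ∈ T ↔ Ramified q K)}

/-- The conclusions hold for all cyclic extensions `L` of `ℚ` of `p`-power degree which contain `K` and are unramified at the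
primes that are unramified in `K` (for instance `L = K`). -/
def Good (p : ℕ) [Fact p.Prime] (K : Ext ℚ) : Prop :=
  ∀ (L : Ext ℚ) (a : ℕ), K ≤ L → Cyclic L (p ^ a) → (∀ q : ℕ, q.Prime → Ramified q L → Ramified q K) →
    Conclusions ∅ L p

/-- the proportion of the good fields among the cyclic fields of degree `p` that are ramified exactly at the primes in `T` -/
noncomputable def proportion (p : ℕ) [Fact p.Prime] (T : Finset ℕ) : ℝ≥0∞ :=
  ({K | K ∈ fields p T ∧ Good p K}.ncard : ℝ≥0∞) / ((fields p T).ncard : ℝ≥0∞)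

/-- the primes up to `x` that are `1` modulo `p` -/
def primesOne (p x : ℕ) : Finset ℕ := (Finset.range (x + 1)).filter fun q => q.Prime ∧ p ∣ q - 1

/-- The iterated lower mean of `w (T ∪ {q₁, …, q_n})` over primes `q_i ≡ 1` modulo `p` that are different and not in `T`: the lower
limit, for `x → ∞`, of the mean over `q₁ ≤ x` of the iterated lower mean over `q₂`, …, `q_n`. -/
noncomputable def lowerMean (p : ℕ) (w : Finset ℕ → ℝ≥0∞) : ℕ → Finset ℕ → ℝ≥0∞
  | 0, T => w T
  | n + 1, T => Filter.liminf (fun x : ℕ => (∑ q ∈ primesOne p x \ T, lowerMean p w n (insert q T)) /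
      ((primesOne p x).card : ℝ≥0∞)) Filter.atTop

section proofs
open Pool.Agent.H518.PZ

theorem lieLattice_eq {p n : ℕ} [Fact p.Prime] {G : Type} [Group G] (ρ : G →* GL (Fin n) ℤ_[p]) :
    lieLattice ρ = Dim.Lam ρ := by
  have h1 : {X | ∀ N : ℕ, ∃ m, N + 1 ≤ m ∧ ∃ g, ∃ Z : Matrix (Fin n) (Fin n) ℤ_[p],
      (ρ g : Matrix (Fin n) (Fin n) ℤ_[p]) = 1 + (p : ℤ_[p]) ^ m • X + (p : ℤ_[p]) ^ (m + N) • Z} =
      (Dim.Lam ρ : Set (Matrix (Fin n) (Fin n) ℤ_[p])) := by
    ext X
    show _ ↔ X ∈ Dim.Lam ρ
    rw [Dim.mem_Lam]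
    refine forall_congr' fun N => exists_congr fun m => and_congr_right fun _ => exists_congr fun g => ?_
    rw [Dim.mem_Dv]
    refine exists_congr fun Z => ?_
    constructor
    · intro h
      show _ = (ρ g : Matrix (Fin n) (Fin n) ℤ_[p]) - 1 - _
      rw [h]
      abel
    · intro h
      rw [h]
      abel
  unfold lieLattice
  rw [h1, Submodule.span_eq]

theorem smallF_of {p : ℕ} [Fact p.Prime] {G M : Type} [Group G] [AddCommGroup M] [Module ℤ_[p] M]
    {β : G →* Module.End ℤ_[p] M} {Λ : Submodule ℤ_[p] M} (h : SmallFactors β Λ) : SmallF β Λ := h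

theorem conclusions_of {F : Type} [Field F] [NumberField F] {S : Set (Ideal (𝓞 F))} {K : Ext F} {p : ℕ}
    [hp : Fact p.Prime] (hp2 : p ≠ 2) (h : PT S K p) : Conclusions S K p := by
  refine ⟨?_, ?_, ?_, ?_⟩
  · intro U _ Fil s r hF ρ hρ hu
    exact h U Fil s r ⟨hF.pos, hF.lt, hF.top, hF.anti, hF.comm, hF.pow, hF.inj, hF.sep⟩ ρ hρ hu
  · intro A _ _ _ _ hA e n c he hreg hne ρ hρ hu hres
    rcases hres with hres | ⟨rfl, hres⟩
    · exact h.rep hA he hreg hne ρ hρ hu hres
    · exact h.rep hA he hreg hne ρ hρ hu (fun gs hgs => kol ρ hres gs hgs)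
  · intro n ρ hρ hu hpg hS
    refine Dim.std_trivial hp2 h ρ hρ hu (fun g => ?_) (smallF_of hS)
    obtain ⟨k, hk⟩ := hpg g
    exact ⟨k, (Dim.mem_Cs ρ).1 hk⟩
  · intro n ρ hρ hu hpg hdim
    have hpg' : ∀ g, ∃ k, Dim.R ρ (g ^ (p ^ k)) - 1 ∈ Dim.Dv p n 1 := by
      intro g
      obtain ⟨k, hk⟩ := hpg g
      exact ⟨k, (Dim.mem_Cs ρ).1 hk⟩
    refine Dim.finite_image hp2 h ρ hρ hu ?_
    rcases hdim with hdim | hdim
    · exact Dim.ad_of_dim hp2 h ρ hρ hu hpg' hdim
    · rw [lieLattice_eq] at hdim
      exact Dim.ad_trivial hp2 h ρ hρ hu hpg' (smallF_of hdim)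

theorem lowerMean_eq (p : ℕ) (w : Finset ℕ → ℝ≥0∞) :
    ∀ n T, lowerMean p w n T = Pool.Agent.H518.PZ.lowerMean p w n T := by
  intro n
  induction n with
  | zero => intro T; rfl
  | succ n ih =>
    intro T
    unfold lowerMean Pool.Agent.H518.PZ.lowerMean
    simp only [ih]
    rfl

theorem conclusions_rat {p : ℕ} [hp : Fact p.Prime] (hp2 : p ≠ 2) {L : Ext ℚ} {a : ℕ} (hL : Cyclic L (p ^ a))
    (hI : InvI ∅ L p) : ∀ L' ≤ L, Conclusions ∅ L' p := by
  obtain ⟨hG, -, hd⟩ := hL
  have hfin : FiniteDimensional ℚ L :=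
    Module.finite_of_finrank_pos (by rw [hd]; exact Nat.pos_of_ne_zero (pow_ne_zero _ hp.out.ne_zero))
  exact fun L' hL' => conclusions_of hp2 ((PT.of_inv p hp2 ℚ L ⟨a, hd⟩ ∅ (noCyclic_rat p) hI).sub hL')

end proofs

/-- **The unramified Fontaine-Mazur conjecture for most cyclic fields of degree `p`.** -/
theorem result :
    (∀ (p : ℕ) [Fact p.Prime], p ≠ 2 → ∀ (F : Type) [Field F] [NumberField F] (K : Ext F) [FiniteDimensional F K]
      [IsGalois F K], (∃ k, Module.finrank F K = p ^ k) → ∀ S : Set (Ideal (𝓞 F)), NoCyclic S p →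
      InertiaActsTrivially S K p → ∀ K' ≤ K, Conclusions S K' p) ∧
    (∀ (p : ℕ) [Fact p.Prime], p ≠ 2 → ∀ (L : Ext ℚ) (a : ℕ), Cyclic L (p ^ a) → ∀ T : Finset ℕ,
      (∀ q ∈ T, q.Prime ∧ q ≠ p ∧ Ramified q L) →
      (unramifiedCharacters L p).encard ≤ ((p ^ (T.card - 1) : ℕ) : ℕ∞) → ∀ L' ≤ L, Conclusions ∅ L' p) ∧
    ∀ (p : ℕ) [Fact p.Prime], p ≠ 2 →
      (∀ T : Finset ℕ, T.Nonempty → (∀ q ∈ T, q.Prime ∧ p ∣ q - 1) →
        (fields p T).ncard = (p - 1) ^ (T.card - 1)) ∧
      ∀ k, 1 ≤ k → ENNReal.ofReal (∏ i ∈ Finset.Icc 2 k, (1 - 1 / (p : ℝ) ^ i)) ≤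
        lowerMean p (proportion p) k ∅ := by
  refine ⟨fun p hp hp2 F _ _ K _ _ hdeg S hF hI K' hK' => ?_, fun p hp hp2 L a hL T hT hX L' hL' => ?_,
    fun p hp hp2 => ⟨fun T hne hT => (Pool.Agent.H518.PZ.Cyc_card hne hT).2, fun k hk => ?_⟩⟩
  · exact conclusions_of hp2 ((Pool.Agent.H518.PZ.PT.of_inv p hp2 F K hdeg S hF hI).sub hK')
  · refine conclusions_rat hp2 hL (Pool.Agent.H518.PZ.InvI_of_InvH
      (Pool.Agent.H518.PZ.inv_of_rank L hL T hT (le_trans (Set.encard_le_encard ?_) hX))) L' hL'
    rintro ψ ⟨h1, h2⟩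
    refine ⟨h1, fun τ hτ => h2 τ ?_⟩
    rw [Pool.Agent.H518.PZ.In_eq]
    exact hτ
  · rw [lowerMean_eq]
    refine Pool.Agent.H518.PZ.dens hp2 hk (proportion p) fun T hne hT => ?_
    unfold Pool.Agent.H518.PZ.prn proportion
    have hsub : {K | K ∈ Pool.Agent.H518.PZ.Cyc p T ∧ Pool.Agent.H518.PZ.Abv p (fun L => Pool.Agent.H518.PZ.InvI ∅ L p) K} ⊆
        {K | K ∈ fields p T ∧ Good p K} := by
      rintro K ⟨h1, h2⟩
      exact ⟨h1, fun L a hKL hL hr => conclusions_rat hp2 hL (h2 L a hKL hL hr) L le_rfl⟩
    have hfin : {K | K ∈ fields p T ∧ Good p K}.Finite :=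
      (Pool.Agent.H518.PZ.Cyc_card hne hT).1.subset fun K hK => hK.1
    exact ENNReal.div_le_div_right (by exact_mod_cast Set.ncard_le_ncard hsub hfin) _

end Pool.Agent.Results.MP_ca71b5_nt.CyclicFieldsSmallImages
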