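import Pool.Agent.H518.PY.Rep

/-!
# The weak unramified Fontaine-Mazur conjecture for Galois `p`-extensions of small class rank

Let `p` be an odd prime, `F` a number field and `S` a set of primes of `F` such that `F` has no cyclic extension of
degree `p` unramified outside `S` (for example `F = ℚ` and `S` empty), and let `K/F` be a finite Galois extension of
degree a power of `p`.  Let `V` be the Galois group of the maximal elementary abelian `p`-extension of `K`
unramified outside `S` (for empty `S` the class group of `K` modulo `p`).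

Suppose that `2 m < p` and `(τ - 1) ^ m = 0` on `V` for the elements `τ` of the inertia groups of the absolute
Galois group of `F` at the primes outside `S`, or that the rank of `V` is at most `(p + 1) / 2` (at most `1`, if
`p = 3`).

Let `K'` be any field between `F` and `K`, and let `U` be a group with a filtration `U = U_r ⊇ U_(r+1) ⊇ ...`,
`r ≥ 1`, by subgroups with trivial intersection such that `[U_i, U_j] ⊆ U_(i+j)` and the `p`-th power map is an
injective homomorphism from `U_i / U_(i+1)` to `U_(i+r) / U_(i+r+1)`, for instance any uniform pro-`p` group.  Then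
every continuous homomorphism from the absolute Galois group of `K'` to `U` which is unramified outside `S` is
trivial.  In particular every continuous representation of `G_K'` over `ℤ_p`, of any dimension, that is unramified
outside `S` and trivial modulo `p`, is trivial.

There is no condition on the exponent of the class group, and the homomorphism is not supposed to be stable under
the Galois group of `K/F`.

Proof.  Let `H = G_K` and let `H_i` be the elements of `H` all of whose conjugates are mapped to `U_i`.  Let `τ` be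
an inertia element whose `p`-th power acts trivially on all the `H/H_n`.  Modulo `H_(2r+1)`, the group `H` has
class two, and by the correspondence of Baer it becomes an abelian group `A` with an endomorphism `T = τ - 1` such
that `(1 + T) ^ p = 1`, and `T ^ m A` lies in the group generated by the commutators and by `p A`.  If `T ^ n` kills
`W = H/H_(r+1)`, `2 ≤ n ≤ m`, then `T ^ (2 n - 1)` kills the commutators, so `T ^ (p + n - 2) A = 0`, and
`T ^ p = - p T (1 + ...)` implies that `T ^ (n - 1)` kills `W`, because the `p`-th power map is injective on `W`.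
(If `V` is a single Jordan block, then `2 n - 3` steps suffice.)  So `T W = 0`.  If `[τ, H] ⊆ H_a`, `a > r`, a
similar descent in the abelian group `H_a/H_(a+r+1)` shows that `[τ, H] ⊆ H_(a+1)`; here `m + 2 ≤ p` is enough.
Hence the inertia groups and so `G_F` act trivially on `H/H_n` for all `n`, and the transfer homomorphism
`g ↦ g ^ [K : F]` from `G_F` to the centre of `G_F/H_n` is unramified outside `S`, hence trivial.  As the `p`-th
power map of `H_i/H_(i+1)` is injective, `H = H_n` for all `n`.
-/

set_option autoImplicit false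

open NumberField IsLocalRing

namespace Pool.Agent.Results.MP_ca71b5_nt.GaloisPExtensions

open Pool.Agent.Results.MP_ca71b5_nt.UniformQuotients

/-- The maximal elementary abelian `p`-extension of `K` unramified outside `S` has degree at most `p ^ m`. -/
def RankAtMost {F : Type} [Field F] (S : Set (Ideal (𝓞 F)))
    (K : IntermediateField F (AlgebraicClosure F)) (p m : ℕ) : Prop :=
  ∀ (E : Type) [CommGroup E] [Finite E], (∀ x : E, x ^ p = 1) → ∀ f : K.fixingSubgroup →* E,
    Function.Surjective f → IsOpen (f.ker : Set K.fixingSubgroup) → Unramified S f → Nat.card E ≤ p ^ m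

/-- The map `f ↦ (g ↦ f (τ g τ⁻¹) / f g)` on the homomorphisms from the absolute Galois group of `K` to `ℤ/p`. -/
noncomputable def difference {F : Type} [Field F] {K : IntermediateField F (AlgebraicClosure F)}
    [K.fixingSubgroup.Normal] {p : ℕ} (τ : Gal(AlgebraicClosure F/F))
    (f : K.fixingSubgroup →* Multiplicative (ZMod p)) : K.fixingSubgroup →* Multiplicative (ZMod p) :=
  f.comp (MulAut.conjNormal τ).toMonoidHom * f⁻¹

/-- `(τ - 1) ^ m` kills all homomorphisms from the absolute Galois group of `K` to `ℤ/p`, unramified outside `S`,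
for all elements `τ` of the inertia groups at the primes outside `S`. -/
def InertiaNilpotent {F : Type} [Field F] (S : Set (Ideal (𝓞 F)))
    (K : IntermediateField F (AlgebraicClosure F)) [K.fixingSubgroup.Normal] (p m : ℕ) : Prop :=
  ∀ τ ∈ inertia S, ∀ f : K.fixingSubgroup →* Multiplicative (ZMod p),
    IsOpen (f.ker : Set K.fixingSubgroup) → Unramified S f → (difference τ)^[m] f = 1

/-- `p` has order `e` with respect to the maximal ideal `m` of `A` and multiplication by `p` is injective from
`m ^ k / m ^ (k + 1)` to `m ^ (k + e) / m ^ (k + e + 1)` for all `k`, for instance `A` is a discrete valuation ring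
in which `p` has valuation `e`. -/
def RegularOfOrder (A : Type) [CommRing A] [IsLocalRing A] (p e : ℕ) : Prop :=
  (p : A) ∈ maximalIdeal A ^ e ∧
    ∀ k : ℕ, ∀ x ∈ maximalIdeal A ^ k, (p : A) * x ∈ maximalIdeal A ^ (k + e + 1) →
      x ∈ maximalIdeal A ^ (k + 1)

/-- Every continuous representation of the absolute Galois group of `K` over a Noetherian local ring `A` in which
`p` is regular of order `e ≥ 1`, which is unramified outside `S` and trivial modulo the `e`-th power of the maximal
ideal (modulo `p`, if `A` is a discrete valuation ring), is trivial. -/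
def OnlyTrivialRepresentations {F : Type} [Field F] (S : Set (Ideal (𝓞 F)))
    (K : IntermediateField F (AlgebraicClosure F)) (p : ℕ) : Prop :=
  ∀ (A : Type) [CommRing A] [IsLocalRing A] [IsNoetherianRing A] [TopologicalSpace A],
    IsAdic (maximalIdeal A) → ∀ e : ℕ, 1 ≤ e → RegularOfOrder A p e →
    ∀ (n : ℕ) (ρ : K.fixingSubgroup →* GL (Fin n) A), Continuous ρ → Unramified S ρ →
    (∀ g i j, ((ρ g : Matrix (Fin n) (Fin n) A) - 1) i j ∈ maximalIdeal A ^ e) → ∀ g, ρ g = 1

open Pool.Agent.H518.PY
open Pool.Agent.H518.PX (D Phi comm_mem_Phi pow_mem_Phi)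

theorem difference_iterate {F : Type} [Field F] {K : IntermediateField F (AlgebraicClosure F)}
    [K.fixingSubgroup.Normal] {p : ℕ} (τ : Gal(AlgebraicClosure F/F)) (m : ℕ) :
    ∀ (f : K.fixingSubgroup →* Multiplicative (ZMod p)) (x y : K.fixingSubgroup),
    (y : Gal(AlgebraicClosure F/F)) = (D τ)^[m] (x : Gal(AlgebraicClosure F/F)) →
    (difference τ)^[m] f x = f y := by
  induction m with
  | zero =>
    intro f x y h
    rw [Function.iterate_zero_apply] at h ⊢
    rw [Subtype.ext h]
  | succ m ih =>
    intro f x y h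
    have hn : K.fixingSubgroup.Normal := inferInstance
    have hD : ∀ n : ℕ, (D τ)^[n] (x : Gal(AlgebraicClosure F/F)) ∈ K.fixingSubgroup := by
      intro n
      induction n with
      | zero => exact x.2
      | succ n ih =>
        rw [Function.iterate_succ_apply']
        exact K.fixingSubgroup.mul_mem (K.fixingSubgroup.inv_mem ih) (hn.conj_mem _ ih τ)
    rw [Function.iterate_succ_apply, ih (difference τ f) x ⟨_, hD m⟩ rfl]
    have e1 : y = ⟨_, hD m⟩⁻¹ * MulAut.conjNormal τ ⟨_, hD m⟩ := by
      apply Subtype.ext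
      rw [h, Function.iterate_succ_apply']
      rfl
    rw [e1, map_mul, map_inv, mul_comm]
    rfl

/-- the nilpotency criterion -/
theorem part_nilpotent (p : ℕ) [hp : Fact p.Prime] (F : Type) [Field F] [NumberField F]
    (K : IntermediateField F (AlgebraicClosure F)) [FiniteDimensional F K] [IsGalois F K]
    (hdeg : ∃ k, Module.finrank F K = p ^ k) (S : Set (Ideal (𝓞 F))) (hF : NoCyclic S p) (m : ℕ)
    (hm : 1 ≤ m) (hm3 : 2 * m < p) (hN : InertiaNilpotent S K p m) : OT S K p := by
  have hK : K.fixingSubgroup.Normal := inferInstance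
  refine OT.main (by omega) hdeg hF ?_
  intro N _ hNo hNK hNI hNp τ hτ
  have hHn : (K.fixingSubgroup.map (QuotientGroup.mk' N)).Normal :=
    hK.map _ (QuotientGroup.mk'_surjective N)
  refine good_of_char _ _ hm (by omega) ?_
  intro θ x y hxy
  let π := QuotientGroup.mk' N
  let j : K.fixingSubgroup →* K.fixingSubgroup.map π :=
    (π.comp K.fixingSubgroup.subtype).codRestrict _ (fun x => ⟨x, x.2, rfl⟩)
  have hj : ∀ z : K.fixingSubgroup, (z : Gal(AlgebraicClosure F/F)) ∈ N → j z = 1 := fun z hz =>
    Subtype.ext ((QuotientGroup.eq_one_iff (z : Gal(AlgebraicClosure F/F))).2 hz)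
  obtain ⟨x0, hx0, ex⟩ := x.2
  have hDm : ∀ n : ℕ, (D τ)^[n] x0 ∈ K.fixingSubgroup := by
    intro n
    induction n with
    | zero => exact hx0
    | succ n ih =>
      rw [Function.iterate_succ_apply']
      exact K.fixingSubgroup.mul_mem (K.fixingSubgroup.inv_mem ih) (hK.conj_mem _ ih τ)
  have h1 := hN τ hτ (θ.comp j) (Subgroup.isOpen_mono (H₁ := N.subgroupOf K.fixingSubgroup)
    (fun z hz => by
      rw [MonoidHom.mem_ker, MonoidHom.comp_apply, hj z hz, map_one])
    (hNo.preimage continuous_subtype_val)) (fun z hz => by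
      rw [MonoidHom.comp_apply, hj z (hNI z hz z.2), map_one])
  have h2 := difference_iterate τ m (θ.comp j) ⟨x0, hx0⟩ ⟨_, hDm m⟩ rfl
  rw [h1, MonoidHom.comp_apply, MonoidHom.one_apply] at h2
  have h3 : j ⟨_, hDm m⟩ = y := by
    apply Subtype.ext
    rw [hxy, ← ex]
    exact D_it_map π τ m x0
  rw [h3] at h2
  exact h2.symm

/-- the rank criterion -/
theorem part_rank (p : ℕ) [hp : Fact p.Prime] (hp2 : p ≠ 2) (F : Type) [Field F] [NumberField F]
    (K : IntermediateField F (AlgebraicClosure F)) [FiniteDimensional F K] [IsGalois F K]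
    (hdeg : ∃ k, Module.finrank F K = p ^ k) (S : Set (Ideal (𝓞 F))) (hF : NoCyclic S p) (m : ℕ)
    (hm3 : 2 * m ≤ p + 1) (hm4 : m + 2 ≤ p) (hN : RankAtMost S K p m) : OT S K p := by
  have hp3 : 3 ≤ p := by
    have := hp.out.two_le
    omega
  wlog hm : 1 ≤ m generalizing m with H
  · refine H 1 (by omega) (by omega) ?_ le_rfl
    intro E _ _ h1 f h2 h3 h4
    refine (hN E h1 f h2 h3 h4).trans (Nat.pow_le_pow_right hp.out.pos (by omega))
  have hK : K.fixingSubgroup.Normal := inferInstance
  refine OT.main hp2 hdeg hF ?_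
  intro N _ hNo hNK hNI hNp τ hτ
  have hfin : Finite (Gal(AlgebraicClosure F/F) ⧸ N) := finite_quot_of_open N hNo
  have hHn : (K.fixingSubgroup.map (QuotientGroup.mk' N)).Normal :=
    hK.map _ (QuotientGroup.mk'_surjective N)
  set π := QuotientGroup.mk' N with hπ
  set H := K.fixingSubgroup.map π with hH
  refine good_of_card hp2 hNp H (π τ) hm hm3 hm4 ?_
  have hPn := Phi_normal p H
  set M := (Phi p H).subgroupOf H with hM
  have hMn : M.Normal := inferInstance
  have hmk : ∀ x : H, QuotientGroup.mk' M x = 1 ↔ (x : Gal(AlgebraicClosure F/F) ⧸ N) ∈ Phi p H :=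
    fun x => QuotientGroup.eq_one_iff x
  let cg : CommGroup (H ⧸ M) :=
    { (inferInstance : Group (H ⧸ M)) with
      mul_comm := fun a b => by
        obtain ⟨a, rfl⟩ := QuotientGroup.mk'_surjective M a
        obtain ⟨b, rfl⟩ := QuotientGroup.mk'_surjective M b
        have h1 : QuotientGroup.mk' M (a * b * a⁻¹ * b⁻¹) = 1 := (hmk _).2 (comm_mem_Phi a.2 b.2)
        rw [map_mul, map_mul, map_mul, map_inv, map_inv, mul_inv_eq_one,
          mul_inv_eq_iff_eq_mul] at h1
        exact h1 }
  let j : K.fixingSubgroup →* H :=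
    (π.comp K.fixingSubgroup.subtype).codRestrict _ (fun x => ⟨x, x.2, rfl⟩)
  have hj : ∀ z : K.fixingSubgroup, (z : Gal(AlgebraicClosure F/F)) ∈ N → j z = 1 := fun z hz =>
    Subtype.ext ((QuotientGroup.eq_one_iff (z : Gal(AlgebraicClosure F/F))).2 hz)
  refine hN (H ⧸ M) (fun a => ?_) ((QuotientGroup.mk' M).comp j) ?_ ?_ ?_
  · obtain ⟨a, rfl⟩ := QuotientGroup.mk'_surjective M a
    have h1 : QuotientGroup.mk' M (a ^ p) = 1 := (hmk _).2 (pow_mem_Phi a.2)
    rw [map_pow] at h1
    exact h1
  · intro a
    obtain ⟨⟨_, x, hx, rfl⟩, rfl⟩ := QuotientGroup.mk'_surjective M a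
    exact ⟨⟨x, hx⟩, rfl⟩
  · refine Subgroup.isOpen_mono (H₁ := N.subgroupOf K.fixingSubgroup) (fun z hz => ?_)
      (hNo.preimage continuous_subtype_val)
    rw [MonoidHom.mem_ker, MonoidHom.comp_apply, hj z hz, map_one]
  · intro z hz
    rw [MonoidHom.comp_apply, hj z (hNI z hz z.2), map_one]

theorem concl {p : ℕ} [hp : Fact p.Prime] (hp2 : p ≠ 2) {F : Type} [Field F] [NumberField F]
    {K : IntermediateField F (AlgebraicClosure F)} [FiniteDimensional F K]
    {S : Set (Ideal (𝓞 F))} (h : OT S K p) (K' : IntermediateField F (AlgebraicClosure F))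
    (hK : K' ≤ K) : OnlyTrivial S K' p 1 ∧ OnlyTrivialRepresentations S K' p := by
  have h1 : OT S K' p := h.sub hK
  exact ⟨h1.valued, fun A _ _ _ _ hA e he hreg n ρ hρ hu h2 => h1.rep hp2 hA he hreg ρ hρ hu h2⟩

/-- `(τ - 1) ^ m = 0` for the inertia elements, with `2 m < p`, or the rank is at most `(p + 1) / 2` (and at most
`p - 2`, which is a condition for `p = 3` only). -/
def SmallClassGroup {F : Type} [Field F] (S : Set (Ideal (𝓞 F)))
    (K : IntermediateField F (AlgebraicClosure F)) [K.fixingSubgroup.Normal] (p : ℕ) : Prop :=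
  (∃ m, 1 ≤ m ∧ 2 * m < p ∧ InertiaNilpotent S K p m) ∨
    ∃ m, 2 * m ≤ p + 1 ∧ m + 2 ≤ p ∧ RankAtMost S K p m

/-- **The weak unramified Fontaine-Mazur conjecture for Galois `p`-extensions of small class rank.**  The second
part shows that the hypothesis on `F` is satisfied for `F = ℚ` and sets `S` of primes `l ≢ 0, 1` modulo `p`. -/
theorem result :
    (∀ (p : ℕ) [Fact p.Prime], p ≠ 2 → ∀ (F : Type) [Field F] [NumberField F]
      (K : IntermediateField F (AlgebraicClosure F)) [FiniteDimensional F K] [IsGalois F K],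
      (∃ k, Module.finrank F K = p ^ k) → ∀ S : Set (Ideal (𝓞 F)), NoCyclic S p →
      SmallClassGroup S K p →
      ∀ K' ≤ K, OnlyTrivial S K' p 1 ∧ OnlyTrivialRepresentations S K' p) ∧
    (∀ (p : ℕ) [Fact p.Prime] (S : Set ℕ), (∀ l ∈ S, l.Prime ∧ l ≠ p ∧ ¬ p ∣ l - 1) →
      NoCyclic (above S) p) := by
  refine ⟨fun p hp hp2 F _ _ K _ _ hdeg S hF h K' hK' => ?_,
    fun p hp S hS f hf hu => rational p S hS f hf hu⟩
  rcases h with ⟨m, hm, hm3, hN⟩ | ⟨m, hm3, hm4, hN⟩
  · exact concl hp2 (part_nilpotent p F K hdeg S hF m hm hm3 hN) K' hK'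
  · exact concl hp2 (part_rank p hp2 F K hdeg S hF m hm3 hm4 hN) K' hK'

end Pool.Agent.Results.MP_ca71b5_nt.GaloisPExtensions
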