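import Pool.Agent.H517.B.Fam4
import Pool.Agent.H517.S.Gen
import Pool.Agent.H517.E.Pot3
import Pool.Agent.H517.E.Two
import Pool.Agent.H517.S.Rat
import Pool.Agent.H517.D.Gd
import Pool.Agent.H517.D.PKum
import Pool.Agent.H517.D.PFr
import Pool.Agent.H517.D.PEq
import Pool.Agent.H517.D.POne
import Pool.Agent.H517.D.PCnt
import Pool.Agent.H517.D.PRk

/-!
# Potentially unramified representations of the Galois groups of all fields in the `p`-towers, for
# every prime number `p`

`p` is a prime number, `K` a number field (totally complex if `p = 2`), `w` a place of `K` above `p`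
and `S` a finite set of places of `K` not above `p`. The condition `Generates p S w` on the class group
and on the units outside `w` of `K` is that the class group modulo the class of `w` has order prime to
`p` and that, `(p) = w^e 𝔟` with `𝔟` prime to `w` and `𝔫` the product of the primes in `S`, every
element of `(O / 𝔟³ 𝔫)ˣ` is the product of a `p`-th power and of the image of an `α ∈ O` for which
`(α)` is a power of `w`. It is satisfied by

* `K = ℚ(√(1 - 4p))`, `S = ∅` and both places above `p`, for every prime number `p`;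
* `K = ℚ`, `S = {q}`, for all prime numbers `p ≠ q`, unless `q` is `1` modulo `p` and `p` is a `p`-th power
  modulo `q`;
* all `K` with only one place `w` above `p` whose class group modulo the class of `w` has order prime to
  `p`, with `S = ∅`;
* all `K` with exactly one other place `w'` above `p`, if `p` is odd, `w'` is unramified of degree `1`, the
  class group modulo the class of `w` has order prime to `p` and some `α` with `(α)` a power of `w` has
  `α ^ (p - 1) ≢ 1` modulo `w' ^ 2` (for instance imaginary quadratic `K` in which `p` splits);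
* if it holds for `S`, then it holds for `S ∪ {v}` for a set of primes `v` of `K` with natural density
  `1 - #((O / 𝔟³ 𝔫)ˣ / p-th powers) / ([K(ζ_p) : K] p ^ (r₁ + r₂ + δ))`, `δ = 1` if `ζ_p ∈ K`, else `0`
  (Kummer theory and Chebotarev's theorem).

Let `L` be a field which is contained in a finite Galois extension `M / K` of degree a power of `p`,
unramified outside `p` and `S`. There is no condition on the Galois group of `M / K`, and `L / K` need
not be Galois; usually the Galois group of the maximal such `M` is not abelian and not even `p`-adic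
analytic, and the class number of `L` may be divisible by `p`.

We allow also the fields `L` which are contained in a finite Galois extension `M / K` of degree `2 · p^a`, unramified outside
`p` and `S`, which contains the `p`-th roots of unity, provided that the dual condition `Independent p S w` holds: `K_w` contains
no primitive `p`-th root of unity, and an element of `Kˣ` which is a `p`-th power in `K_w` and whose orders outside `p` and `S`
are divisible by `p` is a `p`-th power in `K`. Then `p` is odd and `[K(ζ_p) : K] = 2`, and the `L` are the fields in the towers of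
`p`-extensions over `K(ζ_p)`; for `p = 3` these are all towers of `3`-extensions over `K(√-3)`. With `S = ∅` both conditions are
satisfied by both places above `p` of imaginary quadratic fields `K` if `p` is odd, `(p) = w w'`, `w ≠ w'`, `p` does not divide
the class number and `α ^ (p - 1) ≢ 1` modulo `w'²` for an `α` for which `(α)` is a power of `w`, e.g. for `p = 3` and `ℚ(√-2)`
and `ℚ(√-11)`.

Let `A` be a Noetherian local ring with finite residue field of characteristic `p` (for example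
`A = ℤ_p`, or a power series ring over it or over a finite field), `n` arbitrary, and let
`ρ : G_L → GL_n(A)` be a continuous representation, residually unipotent (this is true if the image is a
pro-`p` group) and unramified outside `p` and `S`.

Theorem. (a) If the image of the inertia group of ONE place of `ℚ̄` above `w` is finite then `ρ` is
potentially abelian: the image of an open normal subgroup of `G_L` is commutative.
(b) If the images of the inertia groups of all places above `p` and `S` are finite then the image of `ρ` is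
finite. In particular all representations `G_{L,∅}(p) → GL_n(A)` of the Galois group of the
`p`-class field tower of `L` have finite image.

Proof. By class field theory no cyclic extension of `K` of degree `p` which is unramified outside `p` and
`S` is totally split at `w`, so that the decomposition groups of `w` are dense in the maximal pro-`p`
quotients unramified outside `p` and `S` of `G_K` and of `G_L` (for the towers over `K(ζ_p)` this follows
from class field theory over `K` for one of the two eigenspaces of the homomorphisms to `ℤ/p` and from Kummer theory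
over `K` for the other one); the commutators of a decomposition group are in the inertia group; this shows (a). For (b) consider the finite quotients `P` of `G_K` (the Galois
groups of the Galois closures of the fields cut out by `ρ` modulo powers of the maximal ideal). The
inertia group of `w` is normal in `P`, with cyclic quotient. The orders of the elements of the inertia
groups in `P` are bounded, hence the order of the quotient is bounded in terms of these orders and of
the class number of `K`, and so is the order of the image of `ρ` modulo all powers of the maximal ideal.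
-/

set_option autoImplicit false
set_option linter.unusedSectionVars false

namespace Pool.Agent.Results.MP_ca71b5_nt.PotentiallyUnramifiedInTowers

open NumberField IsDedekindDomain Matrix IsLocalRing Module

/-! ### The Galois groups, the decomposition groups and the inertia groups -/

/-- An algebraic closure of the number field `K`. -/
abbrev Bar (K : Type) [Field K] : Type := AlgebraicClosure K

/-- The absolute Galois group of `K`. -/
abbrev Gal (K : Type) [Field K] : Type := Bar K ≃ₐ[K] Bar K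

/-- The absolute Galois group of the field `L` between `K` and its algebraic closure, a subgroup of the
absolute Galois group of `K` with the Krull topology. -/
abbrev GalL {K : Type} [Field K] (L : IntermediateField K (Bar K)) : Type := L.fixingSubgroup

section def1

variable {K : Type} [Field K]

/-- The maximal ideal `Q` of the ring of all algebraic integers lies above the prime `v` of `K`. -/
def Above (Q : Ideal (𝓞 (Bar K))) (v : HeightOneSpectrum (𝓞 K)) : Prop :=
  Q.IsMaximal ∧ Q.comap (algebraMap (𝓞 K) (𝓞 (Bar K))) = v.asIdeal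

/-- The decomposition group of the maximal ideal `Q` of the ring of all algebraic integers: the `σ`
such that `σ Q = Q`. -/
def Dec (Q : Ideal (𝓞 (Bar K))) : Set (Gal K) := {σ | ∀ x : 𝓞 (Bar K), x ∈ Q ↔ σ • x ∈ Q}

/-- The inertia group: the `σ` such that `σ x` is congruent to `x` modulo `Q` for all `x`. -/
def Inr (Q : Ideal (𝓞 (Bar K))) : Set (Gal K) := {σ | ∀ x : 𝓞 (Bar K), σ • x - x ∈ Q}

/-- `Q` is a place of the field of all algebraic numbers at which no ramification is allowed: it is a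
maximal ideal, not above `p` and not above a prime in `S`. -/
def Outside (p : ℕ) (S : Finset (HeightOneSpectrum (𝓞 K))) (Q : Ideal (𝓞 (Bar K))) : Prop :=
  Q.IsMaximal ∧ (p : 𝓞 (Bar K)) ∉ Q ∧ ∀ v ∈ S, ¬ Above Q v

/-- `L` is contained in a finite Galois extension `M / K` whose degree is a power of `p` and which is
unramified outside `p` and `S`. -/
def InTower (p : ℕ) (S : Finset (HeightOneSpectrum (𝓞 K))) (L : IntermediateField K (Bar K)) :
    Prop :=
  ∃ M : IntermediateField K (Bar K), L ≤ M ∧ FiniteDimensional K M ∧ IsGalois K M ∧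
    (∃ a : ℕ, finrank K M = p ^ a) ∧
    ∀ Q : Ideal (𝓞 (Bar K)), Outside p S Q → ∀ σ ∈ Inr Q, ∀ x ∈ M, σ x = x

/-- `L` is contained in a finite Galois extension `M / K` of degree `2 · p ^ a` which contains the `p`-th
roots of unity and is unramified outside `p` and `S`. -/
def InTowerTwo (p : ℕ) (S : Finset (HeightOneSpectrum (𝓞 K))) (L : IntermediateField K (Bar K)) :
    Prop :=
  ∃ M : IntermediateField K (Bar K), L ≤ M ∧ FiniteDimensional K M ∧ IsGalois K M ∧
    (∃ a : ℕ, finrank K M = 2 * p ^ a) ∧ (∀ ζ : Bar K, ζ ^ p = 1 → ζ ∈ M) ∧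
    ∀ Q : Ideal (𝓞 (Bar K)), Outside p S Q → ∀ σ ∈ Inr Q, ∀ x ∈ M, σ x = x

/-! ### The representations -/

variable {L : IntermediateField K (Bar K)} {n : ℕ} {A : Type} [CommRing A]

/-- `ρ` is a continuous representation of the absolute Galois group of `L` over `A`, residually
unipotent and unramified outside `p` and `S`. -/
structure Admissible [IsLocalRing A] [TopologicalSpace A] (p : ℕ)
    (S : Finset (HeightOneSpectrum (𝓞 K))) (ρ : GalL L →* GL (Fin n) A) : Prop where
  cont : ∀ i j, Continuous fun σ => (ρ σ : Matrix (Fin n) (Fin n) A) i j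
  unipotent : ∀ σ, ∃ m : ℕ, ∀ i j,
    (((ρ σ : Matrix (Fin n) (Fin n) A) - 1) ^ m) i j ∈ maximalIdeal A
  unramified : ∀ Q : Ideal (𝓞 (Bar K)), Outside p S Q →
    ∀ σ : GalL L, (σ : Gal K) ∈ Inr Q → ρ σ = 1

/-- The image of the inertia group of `Q` under `ρ` is finite. -/
def FiniteInertia (ρ : GalL L →* GL (Fin n) A) (Q : Ideal (𝓞 (Bar K))) : Prop :=
  (ρ '' {σ : GalL L | (σ : Gal K) ∈ Inr Q}).Finite

/-- `ρ` is potentially abelian: it is abelian on an open normal subgroup of finite index. -/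
def PotentiallyAbelian (ρ : GalL L →* GL (Fin n) A) : Prop :=
  ∃ C : Subgroup (GalL L), C.Normal ∧ C.FiniteIndex ∧ IsOpen (C : Set (GalL L)) ∧
    ∀ σ ∈ C, ∀ τ ∈ C, ρ σ * ρ τ = ρ τ * ρ σ

end def1

/-! ### The condition on the place above `p` and on `S` -/

section def2

variable {K : Type} [Field K] [NumberField K]

/-- The class of a prime. -/
noncomputable def cl (w : HeightOneSpectrum (𝓞 K)) : ClassGroup (𝓞 K) :=
  ClassGroup.mk0 ⟨w.asIdeal, mem_nonZeroDivisors_iff_ne_zero.2 w.ne_bot⟩

/-- The class group modulo the class of `w` has order prime to `p`. -/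
def ClassCondition (p : ℕ) (w : HeightOneSpectrum (𝓞 K)) : Prop :=
  ∀ C : ClassGroup (𝓞 K), ∃ m k : ℕ, ¬ p ∣ m ∧ C ^ m = cl w ^ k

/-- The place `w` lies above `p`, those in `S` do not, the class group modulo the class of `w` has order
prime to `p` and, `(p) = w ^ e 𝔟` with `𝔟` prime to `w` and `𝔫` the product of the primes in `S`,
the group `(O / 𝔟 ^ 3 𝔫)ˣ` is generated by the `p`-th powers and the images of the elements `α` of
`O` for which `(α)` is a power of `w`. -/
structure Generates (p : ℕ) (S : Finset (HeightOneSpectrum (𝓞 K))) (w : HeightOneSpectrum (𝓞 K)) :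
    Prop where
  above : (p : 𝓞 K) ∈ w.asIdeal
  tame : ∀ v ∈ S, (p : 𝓞 K) ∉ v.asIdeal
  classes : ClassCondition p w
  units : ∃ (e : ℕ) (𝔟 : Ideal (𝓞 K)), w.asIdeal ^ e * 𝔟 = Ideal.span {(p : 𝓞 K)} ∧
    IsCoprime w.asIdeal 𝔟 ∧ ∀ x : 𝓞 K, IsCoprime (Ideal.span {x}) (𝔟 * ∏ v ∈ S, v.asIdeal) →
      ∃ (α y : 𝓞 K) (k : ℕ), Ideal.span {α} = w.asIdeal ^ k ∧
        x * α - y ^ p ∈ 𝔟 ^ 3 * ∏ v ∈ S, v.asIdeal

/-- The natural density, among all primes of `K`, of the set of the primes with the property `P` is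
`a`. -/
def HasDensity (P : HeightOneSpectrum (𝓞 K) → Prop) (a : ℝ) : Prop :=
  Filter.Tendsto (fun N : ℕ => (Nat.card {v : HeightOneSpectrum (𝓞 K) //
      Ideal.absNorm v.asIdeal ≤ N ∧ P v} : ℝ) /
        (Nat.card {v : HeightOneSpectrum (𝓞 K) // Ideal.absNorm v.asIdeal ≤ N} : ℝ))
    Filter.atTop (nhds a)

/-- The order of `(O / I)ˣ` modulo the `p`-th powers. -/
noncomputable def unitsModPowers (p : ℕ) (I : Ideal (𝓞 K)) : ℕ :=
  (powMonoidHom p : (𝓞 K ⧸ I)ˣ →* (𝓞 K ⧸ I)ˣ).range.index

open Classical in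
/-- The order of the group of the elements of `Kˣ` which are units outside `w`, modulo its `p`-th powers,
multiplied by the degree of `K(ζ_p)` over `K`: it is `[K(ζ_p) : K] p ^ (r₁ + r₂ + δ)` where `K` has `r₁`
real and `r₂` complex places and `δ = 1` if `K` contains a primitive `p`-th root of unity, `δ = 0` if
not. -/
noncomputable def kummerDegree (p : ℕ) (K : Type) [Field K] [NumberField K] : ℕ :=
  finrank K (IntermediateField.adjoin K {ζ : Bar K | ζ ^ p = 1}) *
    p ^ (InfinitePlace.nrRealPlaces K + InfinitePlace.nrComplexPlaces K +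
      if ∃ ζ : K, IsPrimitiveRoot ζ p then 1 else 0)

/-- The element `x` of `K` has a `p`-th root which is fixed by the decomposition group of a place above
`w`, that is, it is a `p`-th power in the completion of `K` at `w`. -/
def PowerAt (p : ℕ) (w : HeightOneSpectrum (𝓞 K)) (x : K) : Prop :=
  ∃ (Q : Ideal (𝓞 (Bar K))) (y : Bar K), Above Q w ∧ y ^ p = algebraMap K (Bar K) x ∧
    ∀ σ ∈ Dec Q, σ y = y

/-- The completion at `w` contains no primitive `p`-th root of unity, and the elements of `Kˣ` which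
are `p`-th powers there and whose orders at the primes not above `p` and not in `S` are divisible by `p` are
`p`-th powers in `K`. -/
structure Independent (p : ℕ) (S : Finset (HeightOneSpectrum (𝓞 K))) (w : HeightOneSpectrum (𝓞 K)) :
    Prop where
  roots : ∀ Q : Ideal (𝓞 (Bar K)), Above Q w → ∀ ζ : Bar K, IsPrimitiveRoot ζ p →
    ∃ σ ∈ Dec Q, σ ζ ≠ ζ
  powers : ∀ x : K, x ≠ 0 → (∀ v : HeightOneSpectrum (𝓞 K), (p : 𝓞 K) ∉ v.asIdeal → v ∉ S →
    ∃ t : WithZero (Multiplicative ℤ), v.valuation K x = t ^ p) → PowerAt p w x → ∃ b : K, x = b ^ p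

/-- The fields `L` to which the theorem applies: those in the towers of `p`-extensions over `K` and, if `Independent` holds,
those in the towers of `p`-extensions over `K(ζ_p)`, `[K(ζ_p) : K] = 2`. -/
def Controlled (p : ℕ) (S : Finset (HeightOneSpectrum (𝓞 K))) (w : HeightOneSpectrum (𝓞 K))
    (L : IntermediateField K (Bar K)) : Prop :=
  InTower p S L ∨ (Independent p S w ∧ InTowerTwo p S L)

/-- **One place controls.** For all fields `L` in the towers over `K`, all coefficient rings `A` and all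
dimensions: a residually unipotent representation of `G_L` unramified outside `p` and `S` is potentially
abelian if the inertia group of ONE place above `w` has finite image, and has finite image if the inertia
groups of all places above `p` and `S` have finite images. -/
def OnePlaceControls (p : ℕ) (S : Finset (HeightOneSpectrum (𝓞 K))) (w : HeightOneSpectrum (𝓞 K)) :
    Prop :=
  ∀ L : IntermediateField K (Bar K), Controlled p S w L →
  ∀ (A : Type) [CommRing A] [IsLocalRing A] [IsNoetherianRing A] [TopologicalSpace A],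
    IsAdic (maximalIdeal A) → Finite (ResidueField A) → (p : A) ∈ maximalIdeal A →
  ∀ (n : ℕ) (ρ : GalL L →* GL (Fin n) A), Admissible p S ρ →
    (∀ Q : Ideal (𝓞 (Bar K)), Above Q w → FiniteInertia ρ Q → PotentiallyAbelian ρ) ∧
    ((∀ Q : Ideal (𝓞 (Bar K)), Q.IsMaximal → ¬ Outside p S Q → FiniteInertia ρ Q) →
      (Set.range ρ).Finite)

/-- There is only one place above `p`. -/
def OnlyPlace (p : ℕ) (w : HeightOneSpectrum (𝓞 K)) : Prop :=
  ∃ e : ℕ, w.asIdeal ^ e = Ideal.span {(p : 𝓞 K)}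

/-- The prime `p` is odd, there is exactly one place `w'` above `p` other than `w`, it is unramified of
degree `1`, and there is an `α` such that `(α)` is a power of `w` and `α ^ (p - 1)` is not `1` modulo
`w' ^ 2`. -/
def SecondPlace (p : ℕ) (w : HeightOneSpectrum (𝓞 K)) : Prop :=
  p ≠ 2 ∧ ∃ (w' : HeightOneSpectrum (𝓞 K)) (e : ℕ), w ≠ w' ∧
    w.asIdeal ^ e * w'.asIdeal = Ideal.span {(p : 𝓞 K)} ∧ Ideal.absNorm w'.asIdeal = p ∧
    ∃ (α : 𝓞 K) (k : ℕ), Ideal.span {α} = w.asIdeal ^ k ∧ α ^ (p - 1) - 1 ∉ w'.asIdeal ^ 2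

/-- Both conditions. -/
def Suitable (p : ℕ) (S : Finset (HeightOneSpectrum (𝓞 K))) (w : HeightOneSpectrum (𝓞 K)) : Prop :=
  Generates p S w ∧ Independent p S w

/-- The classical condition for imaginary quadratic fields: `(p) = w w'`, `w ≠ w'`, `p` does not divide the class number
and `α ^ (p - 1)` is not `1` modulo `w' ^ 2` for an `α` for which `(α)` is a power of `w`. -/
def Gold (p : ℕ) (w w' : HeightOneSpectrum (𝓞 K)) : Prop :=
  w ≠ w' ∧ w.asIdeal * w'.asIdeal = Ideal.span {(p : 𝓞 K)} ∧ ¬ p ∣ classNumber K ∧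
    ∃ (α : 𝓞 K) (k : ℕ), Ideal.span {α} = w.asIdeal ^ k ∧ α ^ (p - 1) - 1 ∉ w'.asIdeal ^ 2

open Classical in
/-- **The density of the primes which can be added.** For `(p) = w ^ e 𝔟`, `𝔟` prime to `w`, and `𝔫` the
product of the primes in `S`, the primes `v` such that the condition holds for `S ∪ {v}` have natural
density `1 - #((O / 𝔟 ^ 3 𝔫)ˣ / p-th powers) / ([K(ζ_p) : K] p ^ (r₁ + r₂ + δ))`; the numerator is `p ^ j`
if `𝔟 = O`, where `j` is the number of the `v ∈ S` with norm `1` modulo `p`. -/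
def DensityOfExtensions (p : ℕ) (S : Finset (HeightOneSpectrum (𝓞 K)))
    (w : HeightOneSpectrum (𝓞 K)) : Prop :=
  ∀ (e : ℕ) (𝔟 : Ideal (𝓞 K)), w.asIdeal ^ e * 𝔟 = Ideal.span {(p : 𝓞 K)} →
    IsCoprime w.asIdeal 𝔟 →
    HasDensity (fun v => Generates p (insert v S) w)
      (1 - (unitsModPowers p (𝔟 ^ 3 * ∏ v ∈ S, v.asIdeal) : ℝ) / (kummerDegree p K : ℝ)) ∧
    (𝔟 = ⊤ → unitsModPowers p (𝔟 ^ 3 * ∏ v ∈ S, v.asIdeal) =
      p ^ (S.filter fun v => p ∣ Ideal.absNorm v.asIdeal - 1).card)

end def2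

/-! ### The theorem -/

section proof

open Pool.Agent.NH7.Sch (OO)
open Pool.Agent.H517

variable {K : Type} [Field K] [NumberField K] {p : ℕ} [hp : Fact p.Prime]

theorem prod_le_iff {S : Finset (HeightOneSpectrum (𝓞 K))} (v : HeightOneSpectrum (𝓞 K)) :
    (∏ u ∈ S, u.asIdeal) ≤ v.asIdeal ↔ v ∈ S := by
  constructor
  · intro h
    obtain ⟨u, hu, huv⟩ := (v.isPrime.prod_le).1 h
    have : u = v := HeightOneSpectrum.ext (u.isMaximal.eq_of_le v.isPrime.ne_top huv)
    exact this ▸ hu
  · intro h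
    exact Ideal.le_of_dvd (Finset.dvd_prod_of_mem _ h)

theorem rc (h2 : p = 2 → IsEmpty (K →+* ℝ)) {S : Finset (HeightOneSpectrum (𝓞 K))}
    {w : HeightOneSpectrum (𝓞 K)} (h : Generates p S w) :
    Pool.Agent.H517.S.RC p {v | (p : 𝓞 K) ∈ v.asIdeal ∨ v ∈ S} w := by
  obtain ⟨e, 𝔟, hab, hcop, hun⟩ := h.units
  have h1 := Pool.Agent.H517.S.rc_all h2 hab hcop (𝔫 := ∏ v ∈ S, v.asIdeal) ?_ ?_ h.above
    (B.cls_divisor h.classes) hun
  · simpa only [prod_le_iff] using h1
  · exact Finset.prod_ne_zero_iff.2 fun v _ => v.ne_bot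
  · refine IsCoprime.prod_right fun v hv => ?_
    rw [Ideal.isCoprime_iff_sup_eq]
    have h3 : ¬ Ideal.span {(p : 𝓞 K)} ≤ v.asIdeal := by
      rw [Ideal.span_singleton_le_iff_mem]
      exact h.tame v hv
    exact v.isMaximal.1.2 _ (lt_of_le_of_ne le_sup_right fun h4 => h3 (by
      rw [h4]; exact le_sup_left))

theorem out_IS {S : Finset (HeightOneSpectrum (𝓞 K))} {w : HeightOneSpectrum (𝓞 K)} (σ : Gal K)
    (h : σ ∈ Pool.Agent.H517.S.IS (K := K) {v | (p : 𝓞 K) ∈ v.asIdeal ∨ v ∈ S} w) :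
    ∃ Q, Outside p S Q ∧ σ ∈ Inr Q := by
  obtain ⟨Q, v, hQm, hQv, hvS, hvw, hσ⟩ := h
  refine ⟨Q, ⟨hQm, fun hpQ => hvS (Or.inl ?_), fun u hu hQu => hvS (Or.inr ?_)⟩, hσ⟩
  · rw [← hQv, Ideal.mem_comap, map_natCast]
    exact hpQ
  · have : u = v := HeightOneSpectrum.ext (hQu.2.symm.trans hQv)
    exact this ▸ hu

theorem ind_iff {S : Finset (HeightOneSpectrum (𝓞 K))} {w : HeightOneSpectrum (𝓞 K)}
    (hw : (p : 𝓞 K) ∈ w.asIdeal) :
    Independent p S w ↔ E.Ind p {v | (p : 𝓞 K) ∈ v.asIdeal ∨ v ∈ S} w := by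
  constructor
  · intro h
    refine ⟨fun Q hQ hQw ζ hζ => h.roots Q ⟨hQ, hQw⟩ ζ hζ, fun x hx hv ⟨Q, y, hQ, hQw, hy⟩ =>
      h.powers x hx (fun v hpv hvS => hv v (fun h => h.elim hpv hvS) fun hvw => hpv (hvw ▸ hw))
        ⟨Q, y, ⟨hQ, hQw⟩, hy⟩⟩
  · intro h
    refine ⟨fun Q hQ ζ hζ => h.roots Q hQ.1 hQ.2 ζ hζ, fun x hx hv ⟨Q, y, hQ, hy⟩ =>
      h.powers x hx (fun v hpv _ => hv v (fun h => hpv (Or.inl h)) fun h => hpv (Or.inr h))
        ⟨Q, y, hQ.1, hQ.2, hy⟩⟩

theorem exists_eps : ∃ (ζ : Bar K) (ε : Gal K →* (ZMod p)ˣ), IsPrimitiveRoot ζ p ∧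
    ∀ σ : Gal K, σ ζ = ζ ^ (ε σ : ZMod p).val := by
  obtain ⟨ζ, hζ⟩ : ∃ ζ : Bar K, IsPrimitiveRoot ζ p :=
    HasEnoughRootsOfUnity.exists_primitiveRoot (AlgebraicClosure K) p
  exact ⟨ζ, hζ.autToPow K, hζ, fun σ => (hζ.autToPow_spec K σ).symm⟩

/-- the decomposition group controls the homomorphisms -/
theorem control {S : Finset (HeightOneSpectrum (𝓞 K))} {w : HeightOneSpectrum (𝓞 K)}
    (hrc : Pool.Agent.H517.S.RC p {v | (p : 𝓞 K) ∈ v.asIdeal ∨ v ∈ S} w)
    (hw : (p : 𝓞 K) ∈ w.asIdeal)
    {L : IntermediateField K (Bar K)} (hL : Controlled p S w L) {Q : Ideal (𝓞 (Bar K))}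
    (hQ : Above Q w) :
    E.Ctl (1 : L.fixingSubgroup →* (ZMod p)ˣ)
      {σ : L.fixingSubgroup | (σ : Gal K) ∈
        Pool.Agent.H517.S.IS (K := K) {v | (p : 𝓞 K) ∈ v.asIdeal ∨ v ∈ S} w}
      {σ : L.fixingSubgroup | (σ : Gal K) ∈ Pool.Agent.NH7.Sch.Dec Q} := by
  rcases hL with ⟨M, hLM, hfd, hgal, ⟨a, ha⟩, hur⟩ | ⟨hI, M, hLM, hfd, hgal, ⟨a, ha⟩, hζM, hur⟩
  · refine E.ctl_of_tower fun N hN hNo hNi hIN => ?_
    exact Pool.Agent.H517.S.no_split hrc (IntermediateField.fixingSubgroup_le hLM) inferInstance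
      ⟨a, by rw [← IntermediateField.finrank_eq_fixingSubgroup_index, ha]⟩
      (IntermediateField.fixingSubgroup_isOpen M)
      (by
        intro σ hσ
        obtain ⟨Q', hQ', hσ'⟩ := out_IS σ hσ
        rw [IntermediateField.mem_fixingSubgroup_iff]
        exact hur Q' hQ' σ hσ') hQ.1 hQ.2 N hN hNo hNi fun x hx => hIN x hx
  · obtain ⟨ζ, ε, hζ, hε⟩ := exists_eps (K := K) (p := p)
    exact (E.ctl_quad hrc ((ind_iff hw).1 hI) hζ hε
      (IntermediateField.fixingSubgroup_le hLM) (M := M.fixingSubgroup) inferInstance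
      (fun σ hσ => (IntermediateField.mem_fixingSubgroup_iff M _).1 hσ ζ (hζM ζ hζ.pow_eq_one))
      ⟨a, by rw [← IntermediateField.finrank_eq_fixingSubgroup_index, ha]⟩
      (IntermediateField.fixingSubgroup_isOpen M)
      (by
        intro σ hσ
        obtain ⟨Q', hQ', hσ'⟩ := out_IS σ hσ
        rw [IntermediateField.mem_fixingSubgroup_iff]
        exact hur Q' hQ' σ hσ') hQ.1 hQ.2).2.2.1

/-- the decomposition group is dense in the quotients -/
theorem dense {S : Finset (HeightOneSpectrum (𝓞 K))} {w : HeightOneSpectrum (𝓞 K)}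
    (hrc : Pool.Agent.H517.S.RC p {v | (p : 𝓞 K) ∈ v.asIdeal ∨ v ∈ S} w)
    (hw : (p : 𝓞 K) ∈ w.asIdeal)
    {L : IntermediateField K (Bar K)} (hL : Controlled p S w L) :
    ∃ M : Subgroup (Gal K), M ≤ L.fixingSubgroup ∧ M.Normal ∧ M.FiniteIndex ∧
      IsOpen (M : Set (Gal K)) ∧ (∀ x ∈ Pool.Agent.H517.S.IS (K := K)
        {v | (p : 𝓞 K) ∈ v.asIdeal ∨ v ∈ S} w, x ∈ M) ∧
      ∀ Q : Ideal (OO K), Q.IsMaximal → Q.comap (algebraMap (𝓞 K) (OO K)) = w.asIdeal →
        ∀ C : Subgroup (Gal K), C.Normal → IsOpen (C : Set (Gal K)) → C ≤ M →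
        (∃ b : ℕ, C.relIndex M = p ^ b) → (∀ x ∈ Pool.Agent.H517.S.IS (K := K)
          {v | (p : 𝓞 K) ∈ v.asIdeal ∨ v ∈ S} w, x ∈ C) →
          ∀ g : Gal K, ∃ δ ∈ Pool.Agent.NH7.Sch.Dec Q, δ⁻¹ * g ∈ C := by
  rcases hL with ⟨M, hLM, hfd, hgal, ⟨a, ha⟩, hur⟩ | ⟨hI, M, hLM, hfd, hgal, ⟨a, ha⟩, hζM, hur⟩
  · have hidx : M.fixingSubgroup.index = p ^ a := by
      rw [← IntermediateField.finrank_eq_fixingSubgroup_index, ha]
    refine ⟨M.fixingSubgroup, IntermediateField.fixingSubgroup_le hLM, inferInstance,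
      ⟨by rw [hidx]; exact pow_ne_zero _ hp.out.ne_zero⟩,
      IntermediateField.fixingSubgroup_isOpen M, ?_, ?_⟩
    · intro σ hσ
      obtain ⟨Q', hQ', hσ'⟩ := out_IS σ hσ
      rw [IntermediateField.mem_fixingSubgroup_iff]
      exact hur Q' hQ' σ hσ'
    · rintro Q hQ hQw C hCn hCo hCM ⟨b, hb⟩ hCI g
      refine Pool.Agent.H517.S.dense_of (p := p)
        (I := Pool.Agent.H517.S.IS (K := K) {v | (p : 𝓞 K) ∈ v.asIdeal ∨ v ∈ S} w)
        (D := Pool.Agent.NH7.Sch.Dec Q)
        (fun h hc hm hI hD => Pool.Agent.H517.S.key_one hrc hc hm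
          (fun Q' v hQ' hQv hvS hvw σ hσ => hI σ ⟨Q', v, hQ', hQv, hvS, hvw, hσ⟩) hQ hQw hD)
        hCn hCo ⟨b + a, ?_⟩ hCI g
      rw [← Subgroup.relIndex_mul_index hCM, hb, hidx, pow_add]
  · have hidx : M.fixingSubgroup.index = 2 * p ^ a := by
      rw [← IntermediateField.finrank_eq_fixingSubgroup_index, ha]
    obtain ⟨ζ, ε, hζ, hε⟩ := exists_eps (K := K) (p := p)
    refine ⟨M.fixingSubgroup, IntermediateField.fixingSubgroup_le hLM, inferInstance,
      ⟨by rw [hidx]; exact mul_ne_zero two_ne_zero (pow_ne_zero _ hp.out.ne_zero)⟩,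
      IntermediateField.fixingSubgroup_isOpen M, ?_, ?_⟩
    · intro σ hσ
      obtain ⟨Q', hQ', hσ'⟩ := out_IS σ hσ
      rw [IntermediateField.mem_fixingSubgroup_iff]
      exact hur Q' hQ' σ hσ'
    · rintro Q hQ hQw C hCn hCo hCM ⟨b, hb⟩ hCI
      exact (E.ctl_quad hrc ((ind_iff hw).1 hI) hζ hε (H := C) (M := C) le_rfl hCn
        (fun σ hσ => (IntermediateField.mem_fixingSubgroup_iff M _).1 (hCM hσ) ζ
          (hζM ζ hζ.pow_eq_one))
        ⟨b + a, by
          rw [← Subgroup.relIndex_mul_index hCM, hb, hidx, pow_add]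
          ring⟩ hCo hCI hQ hQw).1

/-- **The main theorem.** -/
theorem main {S : Finset (HeightOneSpectrum (𝓞 K))} {w : HeightOneSpectrum (𝓞 K)}
    (hrc : Pool.Agent.H517.S.RC p {v | (p : 𝓞 K) ∈ v.asIdeal ∨ v ∈ S} w)
    (hw : (p : 𝓞 K) ∈ w.asIdeal)
    {L : IntermediateField K (Bar K)} (hL : Controlled p S w L)
    {A : Type} [CommRing A] [IsLocalRing A] [IsNoetherianRing A] [TopologicalSpace A]
    (hA : IsAdic (maximalIdeal A)) (hfin : Finite (ResidueField A)) (hpA : (p : A) ∈ maximalIdeal A)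
    {n : ℕ} {ρ : GalL L →* GL (Fin n) A} (hρ : Admissible p S ρ) :
    (∀ Q : Ideal (𝓞 (Bar K)), Above Q w → FiniteInertia ρ Q → PotentiallyAbelian ρ) ∧
    ((∀ Q : Ideal (𝓞 (Bar K)), Q.IsMaximal → ¬ Outside p S Q → FiniteInertia ρ Q) →
      (Set.range ρ).Finite) := by
  have h5 : ∀ σ : L.fixingSubgroup, (σ : Gal K) ∈ Pool.Agent.H517.S.IS (K := K)
      {v | (p : 𝓞 K) ∈ v.asIdeal ∨ v ∈ S} w → ρ σ = 1 := by
    intro σ hσ
    obtain ⟨Q', hQ', hσ'⟩ := out_IS (σ : Gal K) hσ
    exact hρ.unramified Q' hQ' σ hσ'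
  have hSf : {v : HeightOneSpectrum (𝓞 K) | (p : 𝓞 K) ∈ v.asIdeal ∨ v ∈ S}.Finite :=
    (Pool.Agent.Q125.AR.finite_dvd (F := K) hp.out.ne_zero).union S.finite_toSet
  refine ⟨fun Q hQ hI => ?_, fun hI => ?_⟩
  · exact E.pot_comm hQ.1 hQ.2 (control hrc hw hL hQ) hA hfin hpA hρ.cont hρ.unipotent h5 hI
  · obtain ⟨M, hMH, hMn, hMf, hMo, hIM, hden⟩ := dense hrc hw hL
    refine E.fin_image hSf hMH hMn hMf hMo hIM hden hA hfin hpA hρ.cont
      hρ.unipotent h5 fun Q hQ => ?_
    by_cases h : Outside p S Q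
    · refine (Set.finite_singleton (1 : GL (Fin n) A)).subset ?_
      rintro _ ⟨σ, hσ, rfl⟩
      exact hρ.unramified Q h σ hσ
    · exact hI Q hQ h

/-- the fields `ℚ(√(1 - 4p))` -/
theorem quadratic (h2 : finrank ℚ K = 2) (h : ∃ α : K, α ^ 2 - α + p = 0) :
    IsEmpty (K →+* ℝ) ∧ ∀ w : HeightOneSpectrum (𝓞 K), (p : 𝓞 K) ∈ w.asIdeal →
      Generates p ∅ w := by
  obtain ⟨a, ha⟩ := h
  have hint : IsIntegral ℤ a := by
    refine ⟨Polynomial.X ^ 2 - Polynomial.X + Polynomial.C (p : ℤ), by monicity!, ?_⟩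
    simpa using ha
  obtain ⟨α, hα0⟩ : ∃ α : 𝓞 K, α = ⟨a, hint⟩ := ⟨_, rfl⟩
  have hα1 : algebraMap (𝓞 K) K α = a := by rw [hα0]; rfl
  have hα : α ^ 2 - α + p = 0 := by
    apply FaithfulSMul.algebraMap_injective (𝓞 K) K
    rw [map_add, map_sub, map_pow, map_natCast, map_zero, hα1, ha]
  obtain ⟨β, hβ0⟩ : ∃ β : 𝓞 K, β = 1 - α := ⟨_, rfl⟩
  have hβ : β ^ 2 - β + p = 0 := by rw [hβ0]; linear_combination hα
  obtain ⟨w₁, hw₁⟩ := B.exists_pl (p := p) h2 hα
  obtain ⟨w₂, hw₂⟩ := B.exists_pl (p := p) h2 hβ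
  have hsum : α + β = 1 := by rw [hβ0]; ring
  have hmul : α * β = p := by rw [hβ0]; linear_combination -hα
  have hcop : IsCoprime w₁.asIdeal w₂.asIdeal := by
    rw [hw₁, hw₂, Ideal.isCoprime_span_singleton_iff]
    exact ⟨1, 1, by rw [one_mul, one_mul, hsum]⟩
  have hab : w₁.asIdeal * w₂.asIdeal = Ideal.span {(p : 𝓞 K)} := by
    rw [hw₁, hw₂, Ideal.span_singleton_mul_span_singleton, hmul]
  have hcl := B.class_lt h2 hp.out hα
  refine ⟨B.no_real hp.out.one_le hα, fun w hw => ?_⟩
  have hw' : w = w₁ ∨ w = w₂ := by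
    have h3 : w₁.asIdeal * w₂.asIdeal ≤ w.asIdeal := by
      rw [hab, Ideal.span_singleton_le_iff_mem]
      exact hw
    rcases (w.isPrime.mul_le).1 h3 with h4 | h4
    · exact Or.inl (HeightOneSpectrum.ext (w₁.isMaximal.eq_of_le w.isPrime.ne_top h4)).symm
    · exact Or.inr (HeightOneSpectrum.ext (w₂.isMaximal.eq_of_le w.isPrime.ne_top h4)).symm
  rcases hw' with rfl | rfl
  · refine ⟨hw, by simp, B.class_cond hcl w, 1, w₂.asIdeal, by rw [pow_one, hab], hcop, ?_⟩
    intro x hx
    rw [Finset.prod_empty, mul_one] at hx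
    obtain ⟨α', y, k, h3, h4⟩ := B.unit_cond h2 hα hsum hw₁ hw₂ x hx
    exact ⟨α', y, k, h3, by rwa [Finset.prod_empty, mul_one]⟩
  · refine ⟨hw, by simp, B.class_cond hcl w, 1, w₁.asIdeal, by rw [pow_one, mul_comm, hab],
      hcop.symm, ?_⟩
    intro x hx
    rw [Finset.prod_empty, mul_one] at hx
    obtain ⟨α', y, k, h3, h4⟩ := B.unit_cond h2 hβ (by rw [add_comm, hsum]) hw₂ hw₁ x hx
    exact ⟨α', y, k, h3, by rwa [Finset.prod_empty, mul_one]⟩

/-- the field `ℚ` -/
theorem rational {q : ℕ} [hq : Fact q.Prime] (hpq : p ≠ q)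
    (hc : q % p = 1 → ∀ y : ZMod q, y ^ p ≠ p) {w v : HeightOneSpectrum (𝓞 ℚ)}
    (hw : (p : 𝓞 ℚ) ∈ w.asIdeal) (hv : (q : 𝓞 ℚ) ∈ v.asIdeal) : Generates p {v} w := by
  refine ⟨hw, ?_, fun C => ⟨1, 0, hp.out.one_lt.ne' ∘ Nat.dvd_one.1, by
    rw [Pool.Agent.H517.S.cls_rat C, one_pow, pow_zero]⟩, 1, ⊤, ?_, ?_, ?_⟩
  · intro u hu
    rw [Finset.mem_singleton] at hu
    subst hu
    have h1 := Pool.Agent.H517.S.mem_iff_rat hq.out hv (p : ℤ)
    rw [Int.cast_natCast] at h1
    rw [h1]
    intro h2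
    exact hpq ((Nat.prime_dvd_prime_iff_eq hq.out hp.out).1 (by exact_mod_cast h2)).symm
  · rw [pow_one, Ideal.mul_top, Pool.Agent.H517.S.eq_span_rat hp.out hw]
  · rw [← Ideal.one_eq_top]
    exact isCoprime_one_right
  · intro x hx
    rw [Finset.prod_singleton, ← Ideal.one_eq_top, one_mul] at hx
    obtain ⟨α, y, k, h1, h2⟩ := Pool.Agent.H517.S.units_rat hpq hc hw hv x hx
    exact ⟨α, y, k, h1, by rwa [Finset.prod_singleton, ← Ideal.one_eq_top, one_pow, one_mul]⟩

/-! ### The density of the primes which can be added to `S`, and more families -/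

theorem gen_iff (S : Finset (HeightOneSpectrum (𝓞 K))) (w : HeightOneSpectrum (𝓞 K)) :
    Generates p S w ↔ D.Gen p S w :=
  ⟨fun h => ⟨h.above, h.tame, h.classes, h.units⟩, fun h => ⟨h.above, h.tame, h.classes, h.units⟩⟩

theorem kummerDegree_eq : ((kummerDegree p K : ℕ) : ℝ) =
    (D.cyc p K : ℝ) * (p : ℝ) ^ (NumberField.Units.rank K + 1 + D.del p K) := by
  have h1 : NumberField.Units.rank K + 1 =
      InfinitePlace.nrRealPlaces K + InfinitePlace.nrComplexPlaces K := by
    unfold NumberField.Units.rank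
    rw [InfinitePlace.card_eq_nrRealPlaces_add_nrComplexPlaces]
    have h2 : 0 < Fintype.card (InfinitePlace K) := Fintype.card_pos
    rw [InfinitePlace.card_eq_nrRealPlaces_add_nrComplexPlaces] at h2
    omega
  rw [h1]
  unfold kummerDegree D.cyc D.del
  push_cast
  rfl

open Classical in
theorem density {S : Finset (HeightOneSpectrum (𝓞 K))} {w : HeightOneSpectrum (𝓞 K)}
    (hG : Generates p S w) {e : ℕ} {𝔟 : Ideal (𝓞 K)}
    (hab : w.asIdeal ^ e * 𝔟 = Ideal.span {(p : 𝓞 K)}) (hcop : IsCoprime w.asIdeal 𝔟) :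
    HasDensity (fun v => Generates p (insert v S) w)
      (1 - (unitsModPowers p (𝔟 ^ 3 * ∏ v ∈ S, v.asIdeal) : ℝ) / (kummerDegree p K : ℝ)) := by
  have h := D.rel_dens (D.dens_gen D.s_eq D.s_fr D.s_kum (D.s_cnt D.s_rk) K p S w
    ((gen_iff S w).1 hG) e 𝔟 hab hcop)
  rw [← kummerDegree_eq] at h
  unfold HasDensity
  simp only [gen_iff]
  exact h

open Classical in
theorem units_only (S : Finset (HeightOneSpectrum (𝓞 K))) :
    unitsModPowers p ((⊤ : Ideal (𝓞 K)) ^ 3 * ∏ v ∈ S, v.asIdeal) =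
      p ^ (S.filter fun v => p ∣ Ideal.absNorm v.asIdeal - 1).card := by
  unfold unitsModPowers
  rw [← Ideal.one_eq_top, one_pow, one_mul]
  exact D.pwi_primes p S

/-- only one place above `p` -/
theorem only {w : HeightOneSpectrum (𝓞 K)} (hw : (p : 𝓞 K) ∈ w.asIdeal)
    (h1 : ∃ e : ℕ, w.asIdeal ^ e = Ideal.span {(p : 𝓞 K)})
    (hcl : ClassCondition p w) : Generates p ∅ w := by
  obtain ⟨e, he⟩ := h1
  refine ⟨hw, by simp, hcl, e, ⊤, by rw [Ideal.mul_top, he], ?_, ?_⟩
  · rw [← Ideal.one_eq_top]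
    exact isCoprime_one_right
  · intro x _
    refine ⟨1, 0, 0, by simp, ?_⟩
    rw [Finset.prod_empty, mul_one, ← Ideal.one_eq_top, one_pow, Ideal.one_eq_top]
    trivial

/-- a second place above `p`, of degree one -/
theorem second (hp2 : p ≠ 2) {w w' : HeightOneSpectrum (𝓞 K)} {e : ℕ}
    (hab : w.asIdeal ^ e * w'.asIdeal = Ideal.span {(p : 𝓞 K)}) (hw : (p : 𝓞 K) ∈ w.asIdeal)
    (hne : w ≠ w') (hN : Ideal.absNorm w'.asIdeal = p)
    (hcl : ClassCondition p w) {α : 𝓞 K} {k : ℕ}
    (hα : Ideal.span {α} = w.asIdeal ^ k) (h2 : α ^ (p - 1) - 1 ∉ w'.asIdeal ^ 2) :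
    Generates p ∅ w := by
  refine ⟨hw, by simp, hcl, e, w'.asIdeal, hab, ?_, ?_⟩
  · rw [Ideal.isCoprime_iff_sup_eq]
    refine w'.isMaximal.1.2 _ (lt_of_le_of_ne le_sup_right fun h4 => hne ?_)
    have h5 : w.asIdeal ≤ w'.asIdeal := by rw [h4]; exact le_sup_left
    exact HeightOneSpectrum.ext (w.isMaximal.eq_of_le w'.isPrime.ne_top h5)
  · intro x hx
    rw [Finset.prod_empty, mul_one] at hx ⊢
    exact D.s_one K p hp2 w w' e hab hne hN α k hα h2 x hx

/-- imaginary quadratic fields -/
theorem quad (hp2 : p ≠ 2) (h2 : finrank ℚ K = 2) (hre : IsEmpty (K →+* ℝ))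
    (hcl : ¬ p ∣ classNumber K) {w w' : HeightOneSpectrum (𝓞 K)} (hne : w ≠ w')
    (hab : w.asIdeal * w'.asIdeal = Ideal.span {(p : 𝓞 K)}) {α : 𝓞 K} {k : ℕ}
    (hα : Ideal.span {α} = w.asIdeal ^ k) (hα2 : α ^ (p - 1) - 1 ∉ w'.asIdeal ^ 2) :
    (Generates p ∅ w ∧ Independent p ∅ w) ∧ Generates p ∅ w' ∧ Independent p ∅ w' := by
  have hpw : (p : 𝓞 K) ∈ w.asIdeal := by
    have h3 : Ideal.span {(p : 𝓞 K)} ≤ w.asIdeal := by
      rw [← hab]
      exact Ideal.mul_le_left
    rwa [Ideal.span_singleton_le_iff_mem] at h3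
  have hpw' : (p : 𝓞 K) ∈ w'.asIdeal := by
    have h3 : Ideal.span {(p : 𝓞 K)} ≤ w'.asIdeal := by
      rw [← hab]
      exact Ideal.mul_le_right
    rwa [Ideal.span_singleton_le_iff_mem] at h3
  obtain ⟨h3, h4, β, hβ, hβ2⟩ := E.both_quad hp2 h2 hre hcl hne hab
    (T := {v | (p : 𝓞 K) ∈ v.asIdeal ∨ v ∈ (∅ : Finset (HeightOneSpectrum (𝓞 K)))})
    (fun v hv => hv.elim id fun h => absurd h (Finset.notMem_empty v)) hα hα2
  refine ⟨⟨⟨hpw, by simp, E.class_pow hcl w (cl w), ?_⟩, (ind_iff hpw).2 h3⟩,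
    ⟨hpw', by simp, E.class_pow hcl w (cl w'), ?_⟩, (ind_iff hpw').2 h4⟩
  · simpa only [Finset.prod_empty, mul_one] using E.units_quad hp2 h2 hne hab hα hα2
  · simpa only [Finset.prod_empty, mul_one] using
      E.units_quad hp2 h2 hne.symm (by rw [mul_comm]; exact hab) hβ hβ2

end proof

/-- **Potentially unramified representations over the fields in the `p`-towers have finite image.**
(1) For every prime number `p`, number field `K` (totally complex if `p = 2`), finite set `S` of primes and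
place `w` with the condition `Generates`, all fields `L` contained in a finite Galois extension of `K` of
`p`-power degree unramified outside `p` and `S` (with the condition `Independent` also those contained in a finite
Galois extension of `K` of degree `2 · p ^ a` unramified outside `p` and `S` which contains the `p`-th roots of
unity), all coefficient rings `A` and all dimensions: a residually unipotent representation unramified outside `p` and `S` is potentially abelian if the inertia
group of one place above `w` has finite image, and has finite image if the inertia groups of all places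
above `p` and `S` have finite images. (2) If the condition holds for `S`, then the set of the primes `v`
such that it holds for `S ∪ {v}` has a natural density, which is
`1 - #((O / 𝔟 ^ 3 𝔫)ˣ / p-th powers) / ([K(ζ_p) : K] p ^ (r₁ + r₂ + δ))`. (3) The condition holds for
`S = ∅` if the class group modulo the class of `w` has order prime to `p` and either `w` is the only place
above `p`, or `p` is odd, there is only one other place `w'` above `p`, it is unramified of degree `1` and
there is an `α` such that `(α)` is a power of `w` and `α ^ (p - 1)` is not `1` modulo `w' ^ 2`. (4) It holds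
for `S = ∅` and both places above `p` of `K = ℚ(√(1 - 4 p))`, generated by a root of `X ^ 2 - X + p`, for
all prime numbers `p`; and both conditions hold for `S = ∅` and both places above an odd `p` of an imaginary
quadratic field with the condition `Gold`. (5) It holds for `K = ℚ` and `S = {q}` for all prime numbers `p`, `q`, `p ≠ q`,
unless `q` is `1` modulo `p` and `p` is a `p`-th power modulo `q`. -/
theorem result :
    (∀ (p : ℕ) [Fact p.Prime] (K : Type) [Field K] [NumberField K]
      (S : Finset (HeightOneSpectrum (𝓞 K))) (w : HeightOneSpectrum (𝓞 K)), Generates p S w →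
        DensityOfExtensions p S w ∧ ((p = 2 → IsEmpty (K →+* ℝ)) → OnePlaceControls p S w)) ∧
    (∀ (p : ℕ) [Fact p.Prime] (K : Type) [Field K] [NumberField K] (w : HeightOneSpectrum (𝓞 K)),
      (p : 𝓞 K) ∈ w.asIdeal → ClassCondition p w → OnlyPlace p w ∨ SecondPlace p w →
        Generates p ∅ w) ∧
    (∀ (p : ℕ) [Fact p.Prime] (K : Type) [Field K] [NumberField K], p ≠ 2 →
      finrank ℚ K = 2 → IsEmpty (K →+* ℝ) → ∀ w w' : HeightOneSpectrum (𝓞 K), Gold p w w' →
        Suitable p ∅ w ∧ Suitable p ∅ w') ∧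
    (∀ (p : ℕ) [Fact p.Prime] (K : Type) [Field K] [NumberField K], finrank ℚ K = 2 →
      (∃ α : K, α ^ 2 - α + p = 0) → IsEmpty (K →+* ℝ) ∧
        ∀ w : HeightOneSpectrum (𝓞 K), (p : 𝓞 K) ∈ w.asIdeal → Generates p ∅ w) ∧
    ∀ (p q : ℕ) [Fact p.Prime] [Fact q.Prime], p ≠ q →
      (q % p = 1 → ∀ y : ZMod q, y ^ p ≠ p) →
      ∀ w v : HeightOneSpectrum (𝓞 ℚ), (p : 𝓞 ℚ) ∈ w.asIdeal → (q : 𝓞 ℚ) ∈ v.asIdeal →
        Generates p {v} w := by
  refine ⟨?_, ?_, ?_, ?_, ?_⟩
  · intro p _ K _ _ S w hw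
    refine ⟨?_, ?_⟩
    · intro e 𝔟 hab hcop
      refine ⟨density hw hab hcop, ?_⟩
      rintro rfl
      exact units_only S
    · intro h2 L hL A _ _ _ _ hA hfin hpA n ρ hρ
      exact main (rc h2 hw) hw.above hL hA hfin hpA hρ
  · intro p _ K _ _ w hw hcl h
    rcases h with h1 | ⟨hp2, w', e, hne, hab, hN, α, k, hα, h2⟩
    · exact only hw h1 hcl
    · exact second hp2 hab hw hne hN hcl hα h2
  · intro p _ K _ _ hp2 h2 hre w w' ⟨hne, hab, hcl, α, k, hα, hα2⟩
    exact quad hp2 h2 hre hcl hne hab hα hα2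
  · intro p _ K _ _ h2 h
    exact quadratic h2 h
  · intro p q _ _ hpq hc w v hw hv
    exact rational hpq hc hw hv

end Pool.Agent.Results.MP_ca71b5_nt.PotentiallyUnramifiedInTowers
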