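import Pool.Agent.H518.QT.Main
import Pool.Agent.H518.PZ.Inv

/-!
# Quadratic extensions and the prime two: no stable uniform quotients

Let `F` be a number field and `S` a finite set of primes of `F` which do not contain `2`. Let `2 ^ e` kill all characters of 2-power
order of the absolute Galois group of `F` which are unramified at the finite primes outside `S` (so `2 ^ e` kills the 2-part of a narrow
ray class group; such an `e` always exists). Let `K / F` be any quadratic extension. Let `L / K` be a Galois extension, unramified at
all finite primes outside `S`, such that `L` is Galois over `F` and `U = Gal(L/K)` is a uniform pro-2 group in which the commutators are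
`2 ^ (e + 2)`-th powers (in the strong form given below; for `e = 0` all uniform groups have this property). Then `L = K`.

In particular, for `F = ℚ`, `S = ∅` and `e = 0`: no quadratic number field `K`, without condition on the class group, has an
everywhere unramified extension `L ≠ K`, Galois over `ℚ`, such that `Gal(L/K)` is a uniform pro-2 group. If many primes ramify in `K`,
the 2-class field tower of `K` is infinite (Golod-Shafarevich), so that the statement is not empty.

For odd primes `p` the statement is a theorem of Boston, and in general his theorem is about extensions `K / F` of degree prime to `p`.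
The library (`QuadraticExtensions`) has all representations which are trivial modulo `4`, if the `8`-rank of the class group of `K`
is at most one.

Proof. Let `U_i` be the subgroup of the `2 ^ i`-th powers in `U`, and let `σ` be an element of `Gal(L/F)` outside `U`. Assume that the
commutator subgroup of `U` is contained in `U_j`. The transfer from `Gal(L/F)/U_j` to its commutative subgroup `U/U_j` of index two is
`g ↦ g ^ 2` outside `U` and `x ↦ σ(x) x` on `U`. It is trivial on the inertia groups at the primes outside `S` (if such an inertia
group meets `U` trivially and is not trivial, it is generated by an involution). So it is killed by `2 ^ e`, and `σ(x) x`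
is in `U_(j-e)` for all `x`. We know this for `j = e + 2`. Now let `j ≥ e + 2` and `z = [x, y]`. As `z = w ^ (2 ^ (e + 2))`
modulo small terms, with `w ∈ U_(j-e-2)` and `σ(w) = u w⁻¹`, `u ∈ U_(j-e)`, and `U_(j-e)` is central modulo `U_(j+2)`, we get
`σ(z) = z⁻¹` modulo `U_(j+2)`. On the other hand `σ(z) = [u x⁻¹, v y⁻¹]` is `[x⁻¹, y⁻¹]` and so `z` modulo `U_(j+2)`. Hence
`z ^ 2 ∈ U_(j+2)`, and `z ∈ U_(j+1)`, because `U` is uniform. So `U` is commutative, and it has cyclic quotients of order `2 ^ n` for
all `n` if it is not trivial. But the order of the characters of `K` of 2-power order, unramified outside `S`, is bounded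
(class field theory, from the library by lemmas of helper516).
-/

set_option autoImplicit false

open NumberField

namespace Pool.Agent.Results.MP_ca71b5_nt.StableUniformAtTwo

open Pool.Agent.Results.MP_ca71b5_nt.UniformQuotients

/-- Properties of uniform pro-2 groups `U`: the `2 ^ i`-th powers form a subgroup `U_i`, `[U_i, U_j] ⊆ U_(i+j+e+2)`, square roots
are unique, and the intersection of all `U_i` is trivial. For `e = 0` all uniform pro-2 groups have these properties. If `V` is a
uniform pro-2 group then `U = V_e` has these properties with `e`. -/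
structure Uniform (e : ℕ) (U : Type) [Group U] : Prop where
  mul : ∀ (i : ℕ) (x y : U), ∃ z, x ^ 2 ^ i * y ^ 2 ^ i = z ^ 2 ^ i
  comm : ∀ (i j : ℕ) (x y : U), ∃ z, x ^ 2 ^ i * y ^ 2 ^ j * (x ^ 2 ^ i)⁻¹ * (y ^ 2 ^ j)⁻¹ = z ^ 2 ^ (i + j + (e + 2))
  root : ∀ x y : U, x ^ 2 = y ^ 2 → x = y
  sep : ∀ x : U, (∀ i : ℕ, ∃ y, x = y ^ 2 ^ i) → x = 1

/-- The kernel of the homomorphism `f` from the absolute Galois group of `K` is normal in the absolute Galois group of `F`. -/
def Stable {F : Type} [Field F] {K : IntermediateField F (AlgebraicClosure F)} {U : Type} [Group U]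
    (f : K.fixingSubgroup →* U) : Prop :=
  ∀ (σ : Gal(AlgebraicClosure F/F)) (g g' : K.fixingSubgroup),
    (g' : Gal(AlgebraicClosure F/F)) = σ * g * σ⁻¹ → f g = 1 → f g' = 1

/-- `2 ^ e` kills the continuous characters of 2-power order of the absolute Galois group of `F` which are unramified at all finite
primes outside `S`. -/
def KillsCharacters (F : Type) [Field F] (S : Set (Ideal (𝓞 F))) (e : ℕ) : Prop :=
  ∀ χ : Gal(AlgebraicClosure F/F) →* ℂˣ, IsOpen (χ.ker : Set Gal(AlgebraicClosure F/F)) →
    (∃ m : ℕ, ∀ g, χ g ^ 2 ^ m = 1) → (∀ τ ∈ inertia S, χ τ = 1) → ∀ g, χ g ^ 2 ^ e = 1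

/-- All quotients of the absolute Galois group of `K` which are unramified at all finite primes outside `S`, have the properties
`Uniform e`, and whose kernel is normal in the absolute Galois group of `F`, are trivial. The homomorphism `f` is continuous for
the topology defined by the subgroups `U_N`. -/
def NoStableUniformQuotient {F : Type} [Field F] (S : Set (Ideal (𝓞 F))) (e : ℕ)
    (K : IntermediateField F (AlgebraicClosure F)) : Prop :=
  ∀ (U : Type) [Group U], Uniform e U → ∀ f : K.fixingSubgroup →* U, Function.Surjective f →
    (∀ N : ℕ, IsOpen {g | ∃ y, f g = y ^ 2 ^ N}) → Unramified S f → Stable f → ∀ u : U, u = 1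

/-- **Quadratic extensions have no stable uniform quotients for `p = 2`.** -/
theorem result :
    (∀ (F : Type) [Field F] [NumberField F] (S : Set (Ideal (𝓞 F))), S.Finite → (∀ q ∈ S, (2 : 𝓞 F) ∉ q) →
      (∃ e, KillsCharacters F S e) ∧ ∀ e, KillsCharacters F S e →
        ∀ K : IntermediateField F (AlgebraicClosure F), Module.finrank F K = 2 → NoStableUniformQuotient S e K) ∧
    ∀ K : IntermediateField ℚ (AlgebraicClosure ℚ), Module.finrank ℚ K = 2 → NoStableUniformQuotient ∅ 0 K := by
  have h1 : ∀ (F : Type) [Field F] [NumberField F] (S : Set (Ideal (𝓞 F))), S.Finite → (∀ q ∈ S, (2 : 𝓞 F) ∉ q) →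
      ∀ e, KillsCharacters F S e →
      ∀ K : IntermediateField F (AlgebraicClosure F), Module.finrank F K = 2 → NoStableUniformQuotient S e K := by
    intro F _ _ S hSf hS2 e he K hK U _ hU f hs hc hu hst
    exact Pool.Agent.H518.QT.main hSf hS2 he K hK ⟨hU.mul, hU.comm, hU.root, hU.sep⟩ f hs hc hst hu
  refine ⟨fun F _ _ S hSf hS2 => ⟨Pool.Agent.H518.QT.exists_exp F hSf hS2, h1 F S hSf hS2⟩, ?_⟩
  refine h1 ℚ ∅ Set.finite_empty (fun q hq => absurd hq (Set.notMem_empty q)) 0 ?_
  intro χ ho ⟨m, hm⟩ hu g
  rw [pow_zero, pow_one]
  refine Pool.Agent.W215.FM.main _ χ ho (fun P hP τ hτ => hu τ ?_) g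
  rw [← Pool.Agent.H518.PZ.In_eq]
  exact ⟨P, hP, hτ⟩

end Pool.Agent.Results.MP_ca71b5_nt.StableUniformAtTwo
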